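import Pool.Agent.H262R2.Fence

set_option autoImplicit false
set_option linter.unusedSectionVars false

namespace Pool.Agent.H262R2

open Classical

noncomputable section

/-- the crown with `2 n` elements -/
def Crown (n : ℕ) : Type := Bool × ZMod n

namespace Crown

variable {n : ℕ}

instance [NeZero n] : Fintype (Crown n) := inferInstanceAs (Fintype (Bool × ZMod n))

def cle (x y : Crown n) : Prop :=
  x = y ∨ (x.1 = false ∧ y.1 = true ∧ (x.2 = y.2 ∨ x.2 = y.2 + 1))

instance : PartialOrder (Crown n) where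
  le := cle
  le_refl x := Or.inl rfl
  le_trans x y z hxy hyz := by
    rcases hxy with rfl | h
    · exact hyz
    · rcases hyz with rfl | h'
      · exact Or.inr h
      · exact absurd (h.2.1.symm.trans h'.1) (by simp)
  le_antisymm x y hxy hyx := by
    rcases hxy with rfl | h
    · rfl
    · rcases hyx with h' | h'
      · exact h'.symm
      · exact absurd (h.2.1.symm.trans h'.1) (by simp)

theorem le_def (x y : Crown n) :
    x ≤ y ↔ (x = y ∨ (x.1 = false ∧ y.1 = true ∧ (x.2 = y.2 ∨ x.2 = y.2 + 1))) := Iff.rfl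

def mk (b : Bool) (i : ZMod n) : Crown n := (b, i)

theorem conn_aux (m : ℕ) : Relation.EqvGen (· ≤ ·) (mk (n := n) false (m : ZMod n)) (mk false 0) := by
  induction m with
  | zero => rw [Nat.cast_zero]; exact Relation.EqvGen.refl _
  | succ m ih =>
    have h1 : mk (n := n) false ((m + 1 : ℕ) : ZMod n) ≤ mk true (m : ZMod n) := by
      rw [le_def]
      refine Or.inr ⟨rfl, rfl, Or.inr ?_⟩
      show ((m + 1 : ℕ) : ZMod n) = (m : ZMod n) + 1
      push_cast; rfl
    have h2 : mk (n := n) false (m : ZMod n) ≤ mk true (m : ZMod n) := by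
      rw [le_def]
      exact Or.inr ⟨rfl, rfl, Or.inl rfl⟩
    exact (Relation.EqvGen.rel _ _ h1).trans _ _ _
      (((Relation.EqvGen.rel _ _ h2).symm _ _).trans _ _ _ ih)

theorem conn_zero [NeZero n] (x : Crown n) : Relation.EqvGen (· ≤ ·) x (mk false 0) := by
  obtain ⟨b, i⟩ := x
  have h0 := conn_aux (n := n) i.val
  rw [ZMod.natCast_zmod_val] at h0
  cases b with
  | false => exact h0
  | true =>
    have h2 : mk (n := n) false i ≤ mk true i := by
      rw [le_def]
      exact Or.inr ⟨rfl, rfl, Or.inl rfl⟩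
    exact ((Relation.EqvGen.rel _ _ h2).symm _ _).trans _ _ _ h0

theorem conn [NeZero n] : Conn (Crown n) := fun a b =>
  (conn_zero a).trans _ _ _ ((conn_zero b).symm _ _)

/-- rotation by `k` steps -/
def rot (k : ZMod n) : Crown n ≃o Crown n where
  toFun x := mk x.1 (x.2 + k)
  invFun x := mk x.1 (x.2 - k)
  left_inv x := by
    obtain ⟨b, i⟩ := x
    show mk b (i + k - k) = mk b i
    rw [add_sub_cancel_right]
  right_inv x := by
    obtain ⟨b, i⟩ := x
    show mk b (i - k + k) = mk b i
    rw [sub_add_cancel]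
  map_rel_iff' := by
    rintro ⟨b, i⟩ ⟨c, j⟩
    show mk b (i + k) ≤ mk c (j + k) ↔ mk b i ≤ mk c j
    have this : i + k = j + k + 1 ↔ i = j + 1 := by
      constructor
      · intro h
        have h2 : i + k = (j + 1) + k := by rw [h]; ring
        exact add_right_cancel h2
      · intro h; rw [h]; ring
    have e1 : mk b (i + k) = mk c (j + k) ↔ mk b i = mk c j := by
      constructor
      · intro h
        have h1 : b = c := congrArg (fun x : Bool × ZMod n => x.1) h
        have h2 : i + k = j + k := congrArg (fun x : Bool × ZMod n => x.2) h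
        rw [h1, add_right_cancel h2]
      · intro h
        have h1 : b = c := congrArg (fun x : Bool × ZMod n => x.1) h
        have h2 : i = j := congrArg (fun x : Bool × ZMod n => x.2) h
        rw [h1, h2]
    rw [le_def, le_def, e1]
    apply or_congr Iff.rfl
    apply and_congr Iff.rfl
    apply and_congr Iff.rfl
    show (i + k = j + k ∨ i + k = j + k + 1) ↔ (i = j ∨ i = j + 1)
    rw [this, add_left_inj]

end Crown

variable {A : Type} [PartialOrder A]

theorem alt_seq (k : ℕ) : ∀ {x y : A}, Alt true (2 * k) x y → ∃ Z C : ℕ → A, Z 0 = x ∧ Z k = y ∧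
    ∀ i, i < k → Z i ≤ C i ∧ Z (i + 1) ≤ C i := by
  induction k with
  | zero =>
    intro x y h
    exact ⟨fun _ => x, fun _ => x, rfl, h, fun i hi => absurd hi (Nat.not_lt_zero i)⟩
  | succ k ih =>
    intro x y h
    obtain ⟨c, h1, d, h2, h3⟩ := h
    obtain ⟨Z, C, hZ0, hZk, hZ⟩ := ih h3
    refine ⟨fun i => Nat.casesOn i x Z, fun i => Nat.casesOn i c C, rfl, hZk, ?_⟩
    intro i hi
    cases i with
    | zero =>
      refine ⟨step_true.1 h1, ?_⟩
      show Z 0 ≤ c
      rw [hZ0]
      exact step_false.1 h2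
    | succ i => exact hZ i (by omega)

/-- the periodic fence attached to a short fence from `z` to `u z` -/
theorem periodic_fence (u : A →o A) (k N : ℕ) (hk : 0 < k) (hN : ∀ a, u^[N] (u^[N] a) = u^[N] a)
    (z : A) (h : Alt true (2 * k) z (u z)) :
    ∃ Z C : ℕ → A, (∀ i, Z i ≤ C i) ∧ (∀ i, Z (i + 1) ≤ C i) ∧
      (∀ i, Z (i + k) = u (Z i)) ∧ (∀ i, C (i + k) = u (C i)) ∧
      (∀ i, Z (i + N * k) = Z i) ∧ (∀ i, C (i + N * k) = C i) := by
  obtain ⟨Z, C, hZ0, hZk, hZ⟩ := alt_seq k h
  have hmod : ∀ i, i % k < k := fun i => Nat.mod_lt _ hk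
  have hmono : ∀ m : ℕ, Monotone (u^[m]) := fun m => u.monotone.iterate m
  -- general facts on extending a sequence
  have key : ∀ (W : ℕ → A) (i : ℕ), (u^[(i + k) / k]) (W ((i + k) % k)) = u (u^[i / k] (W (i % k))) := by
    intro W i
    rw [Nat.add_div_right _ hk, Nat.add_mod_right, Function.iterate_succ_apply']
  have key2 : ∀ (V : ℕ → A), (∀ i, V (i + k) = u (V i)) → ∀ m i, V (i + m * k) = u^[m] (V i) := by
    intro V hV m
    induction m with
    | zero => intro i; simp
    | succ m ih =>
      intro i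
      rw [Nat.succ_mul, ← Nat.add_assoc, hV, ih, Function.iterate_succ_apply']
  set Z1 : ℕ → A := fun i => u^[i / k] (Z (i % k)) with hZ1
  set C1 : ℕ → A := fun i => u^[i / k] (C (i % k)) with hC1
  have a1 : ∀ i, Z1 i ≤ C1 i := fun i => hmono _ (hZ _ (hmod i)).1
  have a2 : ∀ i, Z1 (i + 1) ≤ C1 i := by
    intro i
    show u^[(i + 1) / k] (Z ((i + 1) % k)) ≤ u^[i / k] (C (i % k))
    by_cases hi : i % k + 1 = k
    · have hi' : (i + 1) = k * (i / k + 1) := by
        have := Nat.div_add_mod i k
        rw [Nat.mul_add, Nat.mul_one]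
        omega
      rw [hi', Nat.mul_div_cancel_left _ hk, Nat.mul_mod_right, hZ0, Function.iterate_succ_apply,
        ← hZk]
      apply hmono
      have := (hZ (i % k) (hmod i)).2
      rw [hi] at this
      exact this
    · have hlt : i % k + 1 < k := lt_of_le_of_ne (hmod i) hi
      have hi' : (i + 1) = (i % k + 1) + k * (i / k) := by
        have := Nat.div_add_mod i k
        omega
      have e1 : (i + 1) / k = i / k := by
        rw [hi', Nat.add_mul_div_left _ _ hk, Nat.div_eq_of_lt hlt]
        rw [Nat.zero_add]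
      have e2 : (i + 1) % k = i % k + 1 := by
        rw [hi', Nat.add_mul_mod_self_left, Nat.mod_eq_of_lt hlt]
      rw [e1, e2]
      exact hmono _ (hZ _ (hmod i)).2
  have a3 : ∀ i, Z1 (i + k) = u (Z1 i) := fun i => key Z i
  have a4 : ∀ i, C1 (i + k) = u (C1 i) := fun i => key C i
  have hcomm : ∀ a, u^[N] (u a) = u (u^[N] a) := fun a => by
    rw [← Function.iterate_succ_apply, Function.iterate_succ_apply']
  refine ⟨fun i => u^[N] (Z1 i), fun i => u^[N] (C1 i), fun i => hmono _ (a1 i),
    fun i => hmono _ (a2 i), fun i => ?_, fun i => ?_, fun i => ?_, fun i => ?_⟩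
  · show u^[N] (Z1 (i + k)) = _
    rw [a3, hcomm]
  · show u^[N] (C1 (i + k)) = _
    rw [a4, hcomm]
  · show u^[N] (Z1 (i + N * k)) = _
    rw [key2 Z1 a3, hN]
  · show u^[N] (C1 (i + N * k)) = _
    rw [key2 C1 a4, hN]

/-- an equivariant map from a crown -/
theorem crown_map (u : A →o A) (k N : ℕ) (hk : 0 < k) 
    (hN : ∀ a, u^[N] (u^[N] a) = u^[N] a)
    (z : A) (h : Alt true (2 * k) z (u z)) [NeZero (N * k)] :
    ∃ y : Crown (N * k) →o A, ∀ j, y (Crown.rot (k : ZMod (N * k)) j) = u (y j) := by
  obtain ⟨Z, C, h1, h2, h3, h4, h5, h6⟩ := periodic_fence u k N hk hN z h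
  have pZ : ∀ i, Z (i % (N * k)) = Z i := fun i =>
    Function.Periodic.map_mod_nat (f := Z) (fun i => h5 i) i
  have pC : ∀ i, C (i % (N * k)) = C i := fun i =>
    Function.Periodic.map_mod_nat (f := C) (fun i => h6 i) i
  let F : Crown (N * k) → A := fun j => bif j.1 then C j.2.val else Z j.2.val
  have Ft : ∀ i, F (Crown.mk true i) = C i.val := fun i => rfl
  have Ff : ∀ i, F (Crown.mk false i) = Z i.val := fun i => rfl
  have hZv : ∀ m : ℕ, Z ((m : ZMod (N * k)).val) = Z m := fun m => by
    rw [ZMod.val_natCast, pZ]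
  have hCv : ∀ m : ℕ, C ((m : ZMod (N * k)).val) = C m := fun m => by
    rw [ZMod.val_natCast, pC]
  refine ⟨⟨F, ?_⟩, ?_⟩
  · rintro ⟨b, i⟩ ⟨c, j⟩ hle
    rcases (Crown.le_def _ _).1 hle with hle | ⟨hb, hc, hij⟩
    · exact le_of_eq (congrArg F hle)
    · have hb' : b = false := hb
      have hc' : c = true := hc
      subst hb'; subst hc'
      show Z i.val ≤ C j.val
      rcases hij with hij | hij
      · have hij' : i = j := hij
        subst hij'
        exact h1 _
      · have hij' : i = j + 1 := hij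
        have : i = ((j.val + 1 : ℕ) : ZMod (N * k)) := by
          rw [hij']; push_cast; rw [ZMod.natCast_zmod_val]
        rw [this, hZv]
        exact h2 _
  · rintro ⟨b, i⟩
    have hik : i + (k : ZMod (N * k)) = ((i.val + k : ℕ) : ZMod (N * k)) := by
      push_cast; rw [ZMod.natCast_zmod_val]
    cases b with
    | false =>
      show Z (i + (k : ZMod (N * k))).val = u (Z i.val)
      rw [hik, hZv, h3]
    | true =>
      show C (i + (k : ZMod (N * k))).val = u (C i.val)
      rw [hik, hCv, h4]

/-- uniform idempotent exponent -/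
theorem unif_exp (P Q : Type) [PartialOrder P] [PartialOrder Q] [Finite P] [Finite Q] :
    ∃ N : ℕ, 0 < N ∧ (∀ (u : P →o P) (a : P), u^[N] (u^[N] a) = u^[N] a) ∧
      (∀ (u : Q →o Q) (a : Q), u^[N] (u^[N] a) = u^[N] a) := by
  obtain ⟨N, hN, h⟩ := exists_idem_pow
    (R := ((P →o P) → (P →o P)) × ((Q →o Q) → (Q →o Q))) (fun u => u, fun u => u)
  have it : ∀ {B : Type} [PartialOrder B] (u : B →o B) (m : ℕ) (a : B), (u ^ m) a = u^[m] a := by
    intro B _ u m
    induction m with
    | zero => intro a; rfl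
    | succ m ih =>
      intro a
      rw [pow_succ, Function.iterate_succ_apply]
      exact ih (u a)
  refine ⟨N, hN, ?_, ?_⟩
  · intro u a
    have h1 := congrFun (congrArg Prod.fst h) u
    have h1 : u ^ (N + N) = u ^ N := h1
    have h2 := DFunLike.congr_fun h1 a
    rw [it, it, Function.iterate_add_apply] at h2
    exact h2
  · intro u a
    have h1 := congrFun (congrArg Prod.snd h) u
    have h1 : u ^ (N + N) = u ^ N := h1
    have h2 := DFunLike.congr_fun h1 a
    rw [it, it, Function.iterate_add_apply] at h2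
    exact h2

end

end Pool.Agent.H262R2
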