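import Pool.Agent.H262R2.Prod

set_option autoImplicit false
set_option linter.unusedSectionVars false

namespace Pool.Agent.H262R2

open Classical

noncomputable section

variable {A : Type} [PartialOrder A]

/-- one step, upwards for `true` -/
def step (b : Bool) (x y : A) : Prop := if b = true then x ≤ y else y ≤ x

theorem step_true {x y : A} : step true x y ↔ x ≤ y := by simp [step]
theorem step_false {x y : A} : step false x y ↔ y ≤ x := by simp [step]

theorem step_refl (b : Bool) (x : A) : step b x x := by cases b <;> simp [step]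

theorem step_trans {b : Bool} {x y z : A} (h : step b x y) (h' : step b y z) : step b x z := by
  cases b
  · rw [step_false] at *; exact h'.trans h
  · rw [step_true] at *; exact h.trans h'

/-- alternating fences with `n` steps -/
def Alt : Bool → ℕ → A → A → Prop
  | _, 0, x, y => x = y
  | b, n + 1, x, y => ∃ c, step b x c ∧ Alt (!b) n c y

theorem Alt.mono {n : ℕ} : ∀ {b : Bool} {x y : A}, Alt b n x y → Alt b (n + 1) x y := by
  induction n with
  | zero =>
    intro b x y h
    exact ⟨x, step_refl b x, h⟩
  | succ n ih =>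
    rintro b x y ⟨c, h1, h2⟩
    exact ⟨c, h1, ih h2⟩

theorem Alt.mono_le {n m : ℕ} (hnm : n ≤ m) {b : Bool} {x y : A} (h : Alt b n x y) :
    Alt b m x y := by
  induction hnm with
  | refl => exact h
  | step _ ih => exact ih.mono

def dir : Bool → ℕ → Bool
  | b, 0 => b
  | b, n + 1 => dir (!b) n

theorem Alt.append {n : ℕ} : ∀ {b : Bool} {x y y' : A}, Alt b n x y → step (dir b n) y y' →
    Alt b (n + 1) x y' := by
  induction n with
  | zero =>
    intro b x y y' h h'
    exact ⟨y', by rw [show x = y from h]; exact h', rfl⟩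
  | succ n ih =>
    rintro b x y y' ⟨c, h1, h2⟩ h'
    exact ⟨c, h1, ih h2 h'⟩

theorem Alt.merge {n : ℕ} : ∀ {b : Bool} {x y y' : A}, Alt b (n + 1) x y → step (dir b n) y y' →
    Alt b (n + 1) x y' := by
  induction n with
  | zero =>
    rintro b x y y' ⟨c, h1, h2⟩ h'
    have h3 : c = y := h2
    subst h3
    exact ⟨y', step_trans h1 h', rfl⟩
  | succ n ih =>
    rintro b x y y' ⟨c, h1, h2⟩ h'
    exact ⟨c, h1, ih h2 h'⟩

theorem dir_even (b : Bool) (k : ℕ) : dir b (2 * k) = b := by
  induction k with
  | zero => rfl
  | succ k ih =>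
    show dir (!(!b)) (2 * k) = b
    rw [Bool.not_not, ih]

theorem dir_odd (b : Bool) (k : ℕ) : dir b (2 * k + 1) = !b := by
  show dir (!b) (2 * k) = !b
  exact dir_even _ k

theorem fix_up [Finite A] (u : A →o A) (a : A) (h : a ≤ u a) : ∃ z, u z = z := by
  obtain ⟨m, hm⟩ := (Set.toFinite {x : A | x ≤ u x}).exists_maximal ⟨a, h⟩
  exact ⟨m, le_antisymm (hm.2 (show u m ≤ u (u m) from u.monotone hm.1) hm.1) hm.1⟩

theorem fix_down [Finite A] (u : A →o A) (a : A) (h : u a ≤ a) : ∃ z, u z = z := by
  obtain ⟨m, hm⟩ := (Set.toFinite {x : A | u x ≤ x}).exists_minimal ⟨a, h⟩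
  exact ⟨m, le_antisymm hm.1 (hm.2 (show u (u m) ≤ u m from u.monotone hm.1) hm.1)⟩

theorem parity_even (u : A →o A) (k : ℕ) (a : A)
    (h : Alt true (2 * k) a (u a) ∨ Alt false (2 * k) a (u a)) :
    ∃ z, Alt true (2 * k) z (u z) := by
  rcases h with h | h
  · exact ⟨a, h⟩
  · cases k with
    | zero => exact ⟨a, h⟩
    | succ k =>
      obtain ⟨d, h1, h2⟩ := h
      refine ⟨d, ?_⟩
      have h3 : Alt true (2 * k + 1) d (u a) := h2
      apply h3.append (y' := u d)
      rw [dir_odd]
      rw [step_false] at h1
      show step false _ _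
      rw [step_false]
      exact u.monotone h1

theorem parity [Finite A] (u : A →o A) (n : ℕ) (a : A)
    (h : Alt true n a (u a) ∨ Alt false n a (u a)) :
    ∃ z, Alt true (2 * (n / 2)) z (u z) := by
  rcases Nat.even_or_odd' n with ⟨k, rfl | rfl⟩
  · have : 2 * k / 2 = k := by omega
    rw [this]
    exact parity_even u k a h
  · have : (2 * k + 1) / 2 = k := by omega
    rw [this]
    rcases h with ⟨c, h1, h2⟩ | ⟨d, h1, h2⟩
    · rw [step_true] at h1
      cases k with
      | zero =>
        have h3 : c = u a := h2
        rw [h3] at h1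
        obtain ⟨z, hz⟩ := fix_up u a h1
        exact ⟨z, hz.symm⟩
      | succ k =>
        have h3 : Alt false (2 * k + 1 + 1) c (u a) := h2
        have h4 : Alt false (2 * k + 1 + 1) c (u c) := by
          apply h3.merge
          rw [dir_odd]
          show step true _ _
          rw [step_true]
          exact u.monotone h1
        exact parity_even u (k + 1) c (Or.inr h4)
    · rw [step_false] at h1
      cases k with
      | zero =>
        have h3 : d = u a := h2
        rw [h3] at h1
        obtain ⟨z, hz⟩ := fix_down u a h1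
        exact ⟨z, hz.symm⟩
      | succ k =>
        have h3 : Alt true (2 * k + 1 + 1) d (u a) := h2
        have h4 : Alt true (2 * k + 1 + 1) d (u d) := by
          apply h3.merge
          rw [dir_odd]
          show step false _ _
          rw [step_false]
          exact u.monotone h1
        exact ⟨d, h4⟩

/-- the comparability graph -/
abbrev G (A : Type) [PartialOrder A] : SimpleGraph A := SimpleGraph.fromRel (fun x y : A => x ≤ y)

theorem alt_of_walk {a b : A} (w : (G A).Walk a b) :
    Alt true w.length a b ∨ Alt false w.length a b := by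
  induction w with
  | nil => exact Or.inl rfl
  | @cons a c b hac w ih =>
    rw [SimpleGraph.Walk.length_cons]
    rcases (SimpleGraph.fromRel_adj _ _ _).1 hac with ⟨_, h | h⟩
    · left
      rcases ih with h2 | h2
      · generalize w.length = m at h2
        cases m with
        | zero => exact ⟨c, step_true.2 h, h2⟩
        | succ m =>
          obtain ⟨d, h3, h4⟩ := h2
          exact Alt.mono ⟨d, step_trans (step_true.2 h) h3, h4⟩
      · exact ⟨c, step_true.2 h, h2⟩
    · right
      rcases ih with h2 | h2
      · exact ⟨c, step_false.2 h, h2⟩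
      · generalize w.length = m at h2
        cases m with
        | zero => exact ⟨c, step_false.2 h, h2⟩
        | succ m =>
          obtain ⟨d, h3, h4⟩ := h2
          exact Alt.mono ⟨d, step_trans (step_false.2 h) h3, h4⟩

theorem alt_of_edist {a b : A} {n : ℕ} (h : (G A).edist a b ≤ n) :
    Alt true n a b ∨ Alt false n a b := by
  have hne : (G A).edist a b ≠ ⊤ := ne_top_of_le_ne_top (ENat.natCast_ne_top n) h
  obtain ⟨w, hw⟩ := SimpleGraph.exists_walk_of_edist_ne_top hne
  have hl : w.length ≤ n := by
    have : (w.length : ℕ∞) ≤ n := by rw [hw]; exact h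
    exact_mod_cast this
  rcases alt_of_walk w with h1 | h1
  · exact Or.inl (h1.mono_le hl)
  · exact Or.inr (h1.mono_le hl)

theorem edist_step {a b : A} (h : a ≤ b ∨ b ≤ a) : (G A).edist a b ≤ 1 := by
  by_cases hab : a = b
  · subst hab; simp
  · have : (G A).Adj a b := (SimpleGraph.fromRel_adj _ _ _).2 ⟨hab, h⟩
    rw [SimpleGraph.edist_eq_one_iff_adj.2 this]

/-- a monotone map does not increase distances -/
theorem edist_map {B : Type} [PartialOrder B] (φ : A → B) (hφ : ∀ x y, x ≤ y → φ x ≤ φ y)
    (a b : A) : (G B).edist (φ a) (φ b) ≤ (G A).edist a b := by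
  by_cases hne : (G A).edist a b = ⊤
  · rw [hne]; exact le_top
  · obtain ⟨w, hw⟩ := SimpleGraph.exists_walk_of_edist_ne_top hne
    rw [← hw]
    clear hw hne
    induction w with
    | nil => simp
    | @cons a c b hac w ih =>
      rw [SimpleGraph.Walk.length_cons]
      have h1 : (G B).edist (φ a) (φ c) ≤ 1 := by
        apply edist_step
        rcases (SimpleGraph.fromRel_adj _ _ _).1 hac with ⟨_, h | h⟩
        · exact Or.inl (hφ _ _ h)
        · exact Or.inr (hφ _ _ h)
      calc (G B).edist (φ a) (φ b) ≤ (G B).edist (φ a) (φ c) + (G B).edist (φ c) (φ b) :=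
            SimpleGraph.edist_triangle
        _ ≤ 1 + w.length := add_le_add h1 ih
        _ = ((w.length + 1 : ℕ) : ℕ∞) := by push_cast; ring

end

end Pool.Agent.H262R2
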