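import Mathlib

set_option autoImplicit false
set_option linter.unusedSectionVars false

namespace Pool.Agent.H262R2

open Finset Classical

noncomputable section

abbrev F2 := ZMod 2

/-- finite chains of a partial order (the empty chain included) -/
def Ch (A : Type) [PartialOrder A] : Type := {s : Finset A // IsChain (· ≤ ·) (s : Set A)}

variable {A B C : Type} [PartialOrder A] [PartialOrder B] [PartialOrder C]
  [Fintype A] [Fintype B] [Fintype C]

instance : Fintype (Ch A) := by unfold Ch; infer_instance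

def Ch.erase (t : Ch A) (x : A) : Ch A :=
  ⟨t.1.erase x, t.2.mono (by exact_mod_cast Finset.erase_subset x t.1)⟩

@[simp] theorem Ch.erase_val (t : Ch A) (x : A) : (t.erase x).1 = t.1.erase x := rfl

theorem Ch.ext' {s t : Ch A} (h : s.1 = t.1) : s = t := Subtype.ext h

def Ch.emp : Ch A := ⟨∅, by simp⟩

def Ch.map (f : A →o B) (t : Ch A) : Ch B :=
  ⟨t.1.image f, by
    rw [Finset.coe_image]
    intro x hx y hy _
    obtain ⟨a, ha, rfl⟩ := hx
    obtain ⟨b, hb, rfl⟩ := hy
    rcases t.2.total ha hb with h | h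
    · exact Or.inl (f.monotone h)
    · exact Or.inr (f.monotone h)⟩

@[simp] theorem Ch.map_val (f : A →o B) (t : Ch A) : (t.map f).1 = t.1.image f := rfl

theorem Ch.mem_map (f : A →o B) (t : Ch A) (b : B) : b ∈ (t.map f).1 ↔ ∃ a ∈ t.1, f a = b :=
  Finset.mem_image

/-- the boundary -/
def D (A : Type) [PartialOrder A] : Matrix (Ch A) (Ch A) F2 := fun s t =>
  if s.1 ⊆ t.1 ∧ t.1.card = s.1.card + 1 then 1 else 0

/-- the chain map induced by a monotone map -/
def M (f : A →o B) : Matrix (Ch B) (Ch A) F2 := fun s t =>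
  if t.map f = s ∧ s.1.card = t.1.card then 1 else 0

theorem D_iff (s t : Ch A) : (s.1 ⊆ t.1 ∧ t.1.card = s.1.card + 1) ↔ ∃ x ∈ t.1, t.erase x = s := by
  constructor
  · rintro ⟨h1, h2⟩
    have h3 : (t.1 \ s.1).card = 1 := by
      rw [Finset.card_sdiff_of_subset h1]; omega
    obtain ⟨x, hx⟩ := Finset.card_eq_one.1 h3
    have hx' : x ∈ t.1 \ s.1 := by rw [hx]; simp
    rw [Finset.mem_sdiff] at hx'
    refine ⟨x, hx'.1, Ch.ext' ?_⟩
    rw [Ch.erase_val]
    apply Finset.Subset.antisymm
    · intro y hy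
      rw [Finset.mem_erase] at hy
      by_contra hys
      have : y ∈ t.1 \ s.1 := Finset.mem_sdiff.2 ⟨hy.2, hys⟩
      rw [hx, Finset.mem_singleton] at this
      exact hy.1 this
    · intro y hy
      rw [Finset.mem_erase]
      exact ⟨fun h => hx'.2 (h ▸ hy), h1 hy⟩
  · rintro ⟨x, hx, rfl⟩
    refine ⟨by simp [Finset.erase_subset], ?_⟩
    rw [Ch.erase_val, Finset.card_erase_of_mem hx]
    have : 0 < t.1.card := Finset.card_pos.2 ⟨x, hx⟩
    omega

theorem erase_inj (t : Ch A) : Set.InjOn (fun x => t.erase x) (t.1 : Set A) := by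
  intro x hx y hy h
  by_contra hne
  have h' : t.1.erase x = t.1.erase y := congrArg Subtype.val h
  have : y ∈ t.1.erase x := Finset.mem_erase.2 ⟨fun h => hne h.symm, hy⟩
  rw [h'] at this
  simp at this

/-- sums against a column of the boundary -/
theorem sum_D (φ : Ch A → F2) (t : Ch A) :
    ∑ s, φ s * D A s t = ∑ x ∈ t.1, φ (t.erase x) := by
  rw [← Finset.sum_image (f := φ) (g := fun x => t.erase x) (s := t.1) (erase_inj t)]
  rw [← Finset.sum_filter_add_sum_filter_not Finset.univ
    (fun s => s ∈ t.1.image (fun x => t.erase x))]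
  have h1 : ∑ x ∈ Finset.univ.filter (fun s => ¬ s ∈ t.1.image (fun x => t.erase x)),
      φ x * D A x t = 0 := by
    apply Finset.sum_eq_zero
    intro s hs
    rw [Finset.mem_filter] at hs
    have : D A s t = 0 := by
      unfold D
      rw [if_neg]
      rw [D_iff]
      rintro ⟨x, hx, h⟩
      exact hs.2 (Finset.mem_image.2 ⟨x, hx, h⟩)
    rw [this, mul_zero]
  rw [h1, add_zero]
  have h2 : Finset.univ.filter (fun s => s ∈ t.1.image (fun x => t.erase x)) =
      t.1.image (fun x => t.erase x) := by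
    ext s; simp
  rw [h2]
  apply Finset.sum_congr rfl
  intro s hs
  have : D A s t = 1 := by
    unfold D
    rw [if_pos]
    rw [D_iff]
    obtain ⟨x, hx, h⟩ := Finset.mem_image.1 hs
    exact ⟨x, hx, h⟩
  rw [this, mul_one]

theorem D_eq_sum (r t : Ch A) : D A r t = ∑ x ∈ t.1, if t.erase x = r then (1 : F2) else 0 := by
  have := sum_D (fun s => if s = r then (1 : F2) else 0) t
  rw [← this]
  simp

theorem D_mul_D : D A * D A = 0 := by
  ext r t
  rw [Matrix.mul_apply, sum_D]
  show ∑ x ∈ t.1, D A r (t.erase x) = 0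
  by_cases h : r.1 ⊆ t.1 ∧ t.1.card = r.1.card + 2
  · have h1 : ∀ x ∈ t.1, D A r (t.erase x) = if x ∈ t.1 \ r.1 then (1 : F2) else 0 := by
      intro x hx
      unfold D
      have hc : (t.erase x).1.card = r.1.card + 1 := by
        rw [Ch.erase_val, Finset.card_erase_of_mem hx]; omega
      congr 1
      rw [eq_iff_iff]
      constructor
      · rintro ⟨h2, _⟩
        rw [Finset.mem_sdiff]
        refine ⟨hx, fun hxr => ?_⟩
        have := h2 hxr
        simp at this
      · intro hx2
        rw [Finset.mem_sdiff] at hx2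
        refine ⟨?_, hc⟩
        intro y hy
        rw [Ch.erase_val, Finset.mem_erase]
        exact ⟨fun h => hx2.2 (h ▸ hy), h.1 hy⟩
    rw [Finset.sum_congr rfl h1, Finset.sum_ite_mem, Finset.sum_const]
    have h2 : (t.1 ∩ (t.1 \ r.1)).card = 2 := by
      rw [Finset.inter_eq_right.2 Finset.sdiff_subset, Finset.card_sdiff_of_subset h.1]; omega
    rw [h2]
    decide
  · apply Finset.sum_eq_zero
    intro x hx
    unfold D
    rw [if_neg]
    rintro ⟨h1, h2⟩
    apply h
    refine ⟨h1.trans (Finset.erase_subset _ _), ?_⟩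
    rw [Ch.erase_val, Finset.card_erase_of_mem hx] at h2
    have : 0 < t.1.card := Finset.card_pos.2 ⟨x, hx⟩
    omega

theorem M_col (f : A →o B) (t : Ch A) (φ : Ch B → F2) :
    ∑ s, φ s * M f s t = if (t.map f).1.card = t.1.card then φ (t.map f) else 0 := by
  rw [Finset.sum_eq_single (t.map f)]
  · unfold M
    split_ifs with h1 h2 h3
    · simp
    · exact absurd h1.2 h2
    · exact absurd ⟨rfl, h3⟩ h1
    · simp
  · intro s _ hs
    unfold M
    rw [if_neg, mul_zero]
    rintro ⟨h, _⟩
    exact hs h.symm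
  · intro h; exact absurd (Finset.mem_univ _) h

theorem map_map (f : A →o B) (g : B →o C) (t : Ch A) : (t.map f).map g = t.map (g.comp f) := by
  apply Ch.ext'
  simp only [Ch.map_val]
  rw [Finset.image_image]
  rfl

theorem M_comp (f : A →o B) (g : B →o C) : M (g.comp f) = M g * M f := by
  ext r t
  rw [Matrix.mul_apply, M_col]
  unfold M
  rw [← map_map f g]
  by_cases h : (t.map f).1.card = t.1.card
  · rw [if_pos h, h]
  · rw [if_neg h, if_neg]
    rintro ⟨h1, h2⟩
    apply h
    have h3 : (t.map f).1.card ≤ t.1.card := Finset.card_image_le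
    have h4 : r.1.card ≤ (t.map f).1.card := by
      rw [← h1]; exact Finset.card_image_le
    omega

theorem M_id : M (OrderHom.id : A →o A) = 1 := by
  ext r t
  unfold M
  have : t.map (OrderHom.id : A →o A) = t := by
    apply Ch.ext'; simp
  rw [this, Matrix.one_apply]
  by_cases h : r = t
  · subst h; simp
  · rw [if_neg h, if_neg]
    rintro ⟨h1, _⟩
    exact h h1.symm

theorem card_map_le (f : A →o B) (t : Ch A) : (t.map f).1.card ≤ t.1.card := Finset.card_image_le

theorem D_comm (f : A →o B) : D B * M f = M f * D A := by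
  ext r t
  rw [Matrix.mul_apply, Matrix.mul_apply, M_col, sum_D]
  by_cases hc : (t.map f).1.card = t.1.card
  · rw [if_pos hc]
    have hinj : Set.InjOn f (t.1 : Set A) := Finset.card_image_iff.1 hc
    rw [D_eq_sum]
    have himg : (t.map f).1 = t.1.image f := rfl
    rw [himg, Finset.sum_image hinj]
    apply Finset.sum_congr rfl
    intro x hx
    unfold M
    have h1 : (t.erase x).map f = (t.map f).erase (f x) := by
      apply Ch.ext'
      simp only [Ch.map_val, Ch.erase_val]
      ext y
      simp only [Finset.mem_image, Finset.mem_erase]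
      constructor
      · rintro ⟨a, ⟨ha1, ha2⟩, rfl⟩
        refine ⟨fun h => ha1 (hinj ha2 hx h), a, ha2, rfl⟩
      · rintro ⟨h1, a, ha, rfl⟩
        exact ⟨a, ⟨fun h => h1 (by rw [h]), ha⟩, rfl⟩
    rw [h1]
    congr 1
    rw [eq_iff_iff]
    constructor
    · intro h
      refine ⟨h, ?_⟩
      have hfx : f x ∈ (t.map f).1 := Finset.mem_image_of_mem _ hx
      rw [← h, Ch.erase_val, Ch.erase_val, Finset.card_erase_of_mem hx,
        Finset.card_erase_of_mem hfx, hc]
    · exact fun h => h.1
  · rw [if_neg hc]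
    symm
    by_cases hS : ∃ x0 ∈ t.1, M f r (t.erase x0) ≠ 0
    · obtain ⟨x0, hx0, hM⟩ := hS
      unfold M at hM
      have hM' : (t.erase x0).map f = r ∧ r.1.card = (t.erase x0).1.card := by
        by_contra h; exact hM (if_neg h)
      obtain ⟨hr, hcr⟩ := hM'
      have hinj : Set.InjOn f ((t.erase x0).1 : Set A) := by
        apply Finset.card_image_iff.1
        rw [← hcr, ← hr]; rfl
      -- partner
      have hx1 : ∃ x1 ∈ t.1, x1 ≠ x0 ∧ f x1 = f x0 := by
        by_contra h
        push Not at h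
        apply hc
        apply Finset.card_image_iff.2
        intro a ha b hb hab
        by_cases ha0 : a = x0
        · by_cases hb0 : b = x0
          · rw [ha0, hb0]
          · exact absurd (by rw [← hab, ha0]) (h b hb hb0)
        · by_cases hb0 : b = x0
          · exact absurd (by rw [hab, hb0]) (h a ha ha0)
          · exact hinj (Finset.mem_coe.2 (Finset.mem_erase.2 ⟨ha0, ha⟩))
              (Finset.mem_coe.2 (Finset.mem_erase.2 ⟨hb0, hb⟩)) hab
      obtain ⟨x1, hx1t, hx10, hf⟩ := hx1
      have hval0 : M f r (t.erase x0) = 1 := by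
        unfold M; rw [if_pos ⟨hr, hcr⟩]
      have hmap1 : (t.erase x1).map f = r := by
        rw [← hr]
        apply Ch.ext'
        simp only [Ch.map_val, Ch.erase_val]
        ext y
        simp only [Finset.mem_image, Finset.mem_erase]
        constructor
        · rintro ⟨a, ⟨ha1, ha2⟩, rfl⟩
          by_cases h : a = x0
          · exact ⟨x1, ⟨hx10, hx1t⟩, by rw [hf, h]⟩
          · exact ⟨a, ⟨h, ha2⟩, rfl⟩
        · rintro ⟨a, ⟨ha1, ha2⟩, rfl⟩
          by_cases h : a = x1
          · exact ⟨x0, ⟨fun h => hx10 h.symm, hx0⟩, by rw [h, hf]⟩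
          · exact ⟨a, ⟨h, ha2⟩, rfl⟩
      have hval1 : M f r (t.erase x1) = 1 := by
        unfold M; rw [if_pos]
        refine ⟨hmap1, ?_⟩
        rw [hcr, Ch.erase_val, Ch.erase_val, Finset.card_erase_of_mem hx0,
          Finset.card_erase_of_mem hx1t]
      have hother : ∀ x ∈ t.1, x ≠ x0 → x ≠ x1 → M f r (t.erase x) = 0 := by
        intro x hx h0 h1
        unfold M
        rw [if_neg]
        rintro ⟨h2, h3⟩
        have hinj2 : Set.InjOn f ((t.erase x).1 : Set A) := by
          apply Finset.card_image_iff.1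
          rw [← h3, ← h2]; rfl
        exact hx10 (hinj2 (Finset.mem_coe.2 (Finset.mem_erase.2 ⟨fun h => h1 h.symm, hx1t⟩))
              (Finset.mem_coe.2 (Finset.mem_erase.2 ⟨fun h => h0 h.symm, hx0⟩)) hf)
      rw [← Finset.add_sum_erase _ _ hx0, ← Finset.add_sum_erase _ _
        (Finset.mem_erase.2 ⟨hx10, hx1t⟩), hval0, hval1, Finset.sum_eq_zero]
      · decide
      · intro x hx
        rw [Finset.mem_erase, Finset.mem_erase] at hx
        exact hother x hx.2.2 hx.2.1 hx.1
    · push Not at hS
      exact Finset.sum_eq_zero hS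

/-- the vector `v` is supported on the chains contained in `Z` -/
def Sup (Z : Set A) (v : Ch A → F2) : Prop := ∀ s, v s ≠ 0 → (s.1 : Set A) ⊆ Z

/-- the augmented chain complex of `Z` is exact -/
def Acyc (Z : Set A) : Prop :=
  ∀ v : Ch A → F2, Sup Z v → Matrix.mulVec (D A) v = 0 → ∃ w, Sup Z w ∧ Matrix.mulVec (D A) w = v

theorem Sup.add {Z : Set A} {v w : Ch A → F2} (hv : Sup Z v) (hw : Sup Z w) : Sup Z (v + w) := by
  intro s hs
  by_cases h : v s = 0
  · apply hw
    intro h2
    apply hs
    rw [Pi.add_apply, h, h2, add_zero]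
  · exact hv s h

theorem f2_add_self (x : F2) : x + x = 0 := CharTwo.add_self_eq_zero x

/-- the method of acyclic carriers -/
theorem carrier (N N' : Matrix (Ch B) (Ch A) F2) (hN : D B * N = N * D A) (hN' : D B * N' = N' * D A)
    (Φ : Ch A → Set B) (mono : ∀ s t : Ch A, s.1 ⊆ t.1 → Φ s ⊆ Φ t)
    (hs : ∀ t, Sup (Φ t) (fun r => N r t)) (hs' : ∀ t, Sup (Φ t) (fun r => N' r t))
    (h0 : ∀ r (t : Ch A), t.1 = ∅ → N r t = N' r t)
    (acyc : ∀ t : Ch A, t.1 ≠ ∅ → Acyc (Φ t)) :
    ∃ K : Matrix (Ch B) (Ch A) F2, N + N' = D B * K + K * D A := by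
  have key : ∀ n : ℕ, ∃ K : Matrix (Ch B) (Ch A) F2, ∀ t : Ch A, t.1.card ≤ n →
      Sup (Φ t) (fun r => K r t) ∧ ∀ r, (D B * K) r t = (N + N' + K * D A) r t := by
    intro n
    induction n with
    | zero =>
      refine ⟨0, fun t ht => ⟨fun r hr => absurd rfl hr, fun r => ?_⟩⟩
      have ht0 : t.1 = ∅ := Finset.card_eq_zero.1 (Nat.le_zero.1 ht)
      rw [Matrix.mul_zero, Matrix.zero_mul, add_zero, Matrix.add_apply, h0 r t ht0, f2_add_self]
      rfl
    | succ n ih =>
      obtain ⟨K, hK⟩ := ih
      have hstep : ∀ t : Ch A, ∃ w : Ch B → F2, t.1.card = n + 1 →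
          Sup (Φ t) w ∧ ∀ r, Matrix.mulVec (D B) w r = (N + N' + K * D A) r t := by
        intro t
        by_cases ht : t.1.card = n + 1
        · have hsup : Sup (Φ t) (fun r => (N + N' + K * D A) r t) := by
            have h1 : Sup (Φ t) (fun r => (K * D A) r t) := by
              intro r hr
              simp only [Matrix.mul_apply] at hr
              rw [sum_D] at hr
              obtain ⟨x, hx, hx2⟩ := Finset.exists_ne_zero_of_sum_ne_zero hr
              have hcard : (t.erase x).1.card ≤ n := by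
                rw [Ch.erase_val, Finset.card_erase_of_mem hx]; omega
              exact ((hK _ hcard).1 r hx2).trans (mono _ _ (Finset.erase_subset _ _))
            have h2 := ((hs t).add (hs' t)).add h1
            exact h2
          have hcyc : Matrix.mulVec (D B) (fun r => (N + N' + K * D A) r t) = 0 := by
            have e1 : Matrix.mulVec (D B) (fun r => (N + N' + K * D A) r t) =
                fun r => (D B * (N + N' + K * D A)) r t := by
              ext r; rfl
            have e2 : D B * (N + N' + K * D A) = (N + N' + D B * K) * D A := by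
              rw [Matrix.mul_add, Matrix.mul_add, hN, hN', Matrix.add_mul, Matrix.add_mul,
                Matrix.mul_assoc]
            rw [e1, e2]
            ext r
            rw [Matrix.mul_apply, sum_D]
            have e3 : ∀ x ∈ t.1, (N + N' + D B * K) r (t.erase x) = (K * D A) r (t.erase x) := by
              intro x hx
              have hcard : (t.erase x).1.card ≤ n := by
                rw [Ch.erase_val, Finset.card_erase_of_mem hx]; omega
              rw [Matrix.add_apply (N + N') (D B * K), (hK _ hcard).2 r, Matrix.add_apply (N + N')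
                (K * D A), ← add_assoc, f2_add_self, zero_add]
            rw [Finset.sum_congr rfl e3, ← sum_D (fun s => (K * D A) r s), ← Matrix.mul_apply,
              Matrix.mul_assoc, D_mul_D, Matrix.mul_zero]
            rfl
          have hne : t.1 ≠ ∅ := by
            intro h
            rw [h] at ht
            simp at ht
          obtain ⟨w, hw1, hw2⟩ := acyc t hne _ hsup hcyc
          exact ⟨w, fun _ => ⟨hw1, fun r => by rw [hw2]⟩⟩
        · exact ⟨0, fun h => absurd h ht⟩
      choose w hw using hstep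
      let K' : Matrix (Ch B) (Ch A) F2 := fun s t => if t.1.card ≤ n then K s t else w t s
      refine ⟨K', fun t ht => ?_⟩
      have hKD : ∀ r, (K' * D A) r t = (K * D A) r t := by
        intro r
        rw [Matrix.mul_apply, Matrix.mul_apply, sum_D, sum_D]
        apply Finset.sum_congr rfl
        intro x hx
        have hcard : (t.erase x).1.card ≤ n := by
          rw [Ch.erase_val, Finset.card_erase_of_mem hx]; omega
        show (if (t.erase x).1.card ≤ n then K r (t.erase x) else w (t.erase x) r) = _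
        rw [if_pos hcard]
      by_cases hn : t.1.card ≤ n
      · have hcol : ∀ s, K' s t = K s t := fun s => if_pos hn
        refine ⟨?_, ?_⟩
        · intro r hr
          exact (hK t hn).1 r (by show K r t ≠ 0; rw [← hcol r]; exact hr)
        · intro r
          rw [Matrix.add_apply, hKD r, ← Matrix.add_apply, ← (hK t hn).2 r, Matrix.mul_apply,
            Matrix.mul_apply]
          apply Finset.sum_congr rfl
          intro s _
          rw [hcol s]
      · have ht' : t.1.card = n + 1 := by omega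
        have hcol : ∀ s, K' s t = w t s := fun s => if_neg hn
        refine ⟨?_, ?_⟩
        · intro r hr
          exact (hw t ht').1 r (by show w t r ≠ 0; rw [← hcol r]; exact hr)
        · intro r
          rw [Matrix.add_apply, hKD r, ← Matrix.add_apply, ← (hw t ht').2 r, Matrix.mul_apply]
          show _ = ∑ s, D B r s * w t s
          apply Finset.sum_congr rfl
          intro s _
          rw [hcol s]
  obtain ⟨K, hK⟩ := key (Fintype.card A)
  refine ⟨K, ?_⟩
  ext r t
  have := (hK t (Finset.card_le_univ _)).2 r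
  rw [Matrix.add_apply (D B * K), this, Matrix.add_apply (N + N'), add_assoc, f2_add_self, add_zero]

/-- cones are acyclic -/
theorem acyc_of_least (Z : Set A) (m : A) (hm : m ∈ Z) (hle : ∀ z ∈ Z, m ≤ z) : Acyc Z := by
  intro v hv hDv
  let K : Matrix (Ch A) (Ch A) F2 := fun u s => if m ∉ s.1 ∧ u.1 = insert m s.1 then 1 else 0
  have key : ∀ s : Ch A, (s.1 : Set A) ⊆ Z → ∀ r, (D A * K + K * D A) r s = if r = s then 1 else 0 := by
    intro s hs r
    rw [Matrix.add_apply, Matrix.mul_apply, Matrix.mul_apply, sum_D]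
    by_cases hms : m ∈ s.1
    · have h1 : ∑ u, D A r u * K u s = 0 := by
        apply Finset.sum_eq_zero
        intro u _
        have : K u s = 0 := if_neg (fun h => h.1 hms)
        rw [this, mul_zero]
      rw [h1, zero_add, ← Finset.add_sum_erase _ _ hms, Finset.sum_eq_zero, add_zero]
      · show (if m ∉ (s.erase m).1 ∧ r.1 = insert m (s.erase m).1 then (1 : F2) else 0) = _
        congr 1
        rw [eq_iff_iff, Ch.erase_val, Finset.insert_erase hms]
        constructor
        · exact fun h => Ch.ext' h.2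
        · intro h
          exact ⟨by simp, by rw [h]⟩
      · intro x hx
        rw [Finset.mem_erase] at hx
        show (if m ∉ (s.erase x).1 ∧ r.1 = insert m (s.erase x).1 then (1 : F2) else 0) = 0
        rw [if_neg]
        rintro ⟨h, _⟩
        exact h (Finset.mem_erase.2 ⟨fun h => hx.1 h.symm, hms⟩)
    · let ins : Ch A := ⟨insert m s.1, by
        rw [Finset.coe_insert]
        apply s.2.insert
        intro b hb _
        exact Or.inl (hle b (hs hb))⟩
      have h1 : ∑ u, D A r u * K u s = D A r ins := by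
        rw [Finset.sum_eq_single ins]
        · have : K ins s = 1 := if_pos ⟨hms, rfl⟩
          rw [this, mul_one]
        · intro u _ hu
          have : K u s = 0 := if_neg (fun h => hu (Ch.ext' h.2))
          rw [this, mul_zero]
        · intro h; exact absurd (Finset.mem_univ _) h
      have h2 : D A r ins = (if r = s then 1 else 0) +
          ∑ y ∈ s.1, if ins.erase y = r then (1 : F2) else 0 := by
        rw [D_eq_sum]
        have : ins.1 = insert m s.1 := rfl
        rw [this, Finset.sum_insert hms]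
        congr 2
        rw [eq_iff_iff]
        have h3 : ins.erase m = s := by
          apply Ch.ext'
          rw [Ch.erase_val, this, Finset.erase_insert hms]
        rw [h3]
        exact ⟨fun h => h.symm, fun h => h.symm⟩
      have h3 : ∑ x ∈ s.1, K r (s.erase x) = ∑ y ∈ s.1, if ins.erase y = r then (1 : F2) else 0 := by
        apply Finset.sum_congr rfl
        intro y hy
        show (if m ∉ (s.erase y).1 ∧ r.1 = insert m (s.erase y).1 then (1 : F2) else 0) = _
        have hym : y ≠ m := fun h => hms (h ▸ hy)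
        have h4 : (ins.erase y).1 = insert m (s.erase y).1 := by
          rw [Ch.erase_val, Ch.erase_val]
          show (insert m s.1).erase y = _
          rw [Finset.erase_insert_of_ne hym.symm]
        congr 1
        rw [eq_iff_iff]
        constructor
        · intro h; exact Ch.ext' (by rw [h4, h.2])
        · intro h
          refine ⟨fun h5 => hms (Finset.mem_of_mem_erase h5), ?_⟩
          rw [← h, h4]
      rw [h1, h2, h3, add_assoc, f2_add_self, add_zero]
  refine ⟨K.mulVec v, ?_, ?_⟩
  · intro u hu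
    obtain ⟨s, _, hs⟩ := Finset.exists_ne_zero_of_sum_ne_zero hu
    have hs1 : K u s ≠ 0 := left_ne_zero_of_mul hs
    have hs2 : v s ≠ 0 := right_ne_zero_of_mul hs
    have hs3 : m ∉ s.1 ∧ u.1 = insert m s.1 := by
      by_contra h; exact hs1 (if_neg h)
    rw [hs3.2, Finset.coe_insert]
    exact Set.insert_subset hm (hv s hs2)
  · have e1 : Matrix.mulVec (D A) (K.mulVec v) = Matrix.mulVec (D A * K + K * D A) v := by
      rw [Matrix.add_mulVec, ← Matrix.mulVec_mulVec, ← Matrix.mulVec_mulVec, hDv,
        Matrix.mulVec_zero, add_zero]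
    rw [e1]
    ext r
    show ∑ s, (D A * K + K * D A) r s * v s = v r
    rw [Finset.sum_eq_single r]
    · by_cases h : v r = 0
      · rw [h, mul_zero]
      · rw [key r (hv r h) r, if_pos rfl, one_mul]
    · intro s _ hs
      by_cases h : v s = 0
      · rw [h, mul_zero]
      · rw [key s (hv s h) r, if_neg (fun h => hs h.symm), zero_mul]
    · intro h; exact absurd (Finset.mem_univ _) h

/-- homotopy of monotone maps -/
def Hot (f g : A →o B) : Prop := Relation.EqvGen (· ≤ ·) f g

theorem M_ne_zero {f : A →o B} {r : Ch B} {t : Ch A} (h : M f r t ≠ 0) : t.map f = r := by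
  by_contra h2
  exact h (if_neg (fun h3 => h2 h3.1))

theorem M_emp (f g : A →o B) (r : Ch B) (t : Ch A) (ht : t.1 = ∅) : M f r t = M g r t := by
  unfold M
  have : t.map f = t.map g := by
    apply Ch.ext'
    simp [ht]
  rw [this]

theorem exists_least (t : Ch A) (ht : t.1 ≠ ∅) : ∃ a ∈ t.1, ∀ b ∈ t.1, a ≤ b := by
  obtain ⟨a, ha⟩ := Finset.exists_minimal (Finset.nonempty_iff_ne_empty.2 ht)
  refine ⟨a, ha.1, fun b hb => ?_⟩
  rcases t.2.total ha.1 hb with h | h
  · exact h
  · exact ha.2 hb h

theorem hot_le {f g : A →o B} (h : f ≤ g) :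
    ∃ K : Matrix (Ch B) (Ch A) F2, M f + M g = D B * K + K * D A := by
  refine carrier (M f) (M g) (D_comm f) (D_comm g) (fun t => {b | ∃ a ∈ t.1, b = f a ∨ b = g a})
    ?_ ?_ ?_ (M_emp f g) ?_
  · rintro s t hst b ⟨a, ha, hb⟩
    exact ⟨a, hst ha, hb⟩
  · intro t r hr
    rw [← M_ne_zero hr]
    intro b hb
    rw [Ch.map_val, Finset.coe_image] at hb
    obtain ⟨a, ha, rfl⟩ := hb
    exact ⟨a, ha, Or.inl rfl⟩
  · intro t r hr
    rw [← M_ne_zero hr]
    intro b hb
    rw [Ch.map_val, Finset.coe_image] at hb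
    obtain ⟨a, ha, rfl⟩ := hb
    exact ⟨a, ha, Or.inr rfl⟩
  · intro t ht
    obtain ⟨a, ha, hmin⟩ := exists_least t ht
    refine acyc_of_least _ (f a) (show ∃ b ∈ t.1, f a = f b ∨ f a = g b from
      ⟨a, ha, Or.inl rfl⟩) ?_
    rintro z ⟨b, hb, rfl | rfl⟩
    · exact f.monotone (hmin b hb)
    · exact (f.monotone (hmin b hb)).trans (h b)

theorem f2m_add_self (X : Matrix (Ch B) (Ch A) F2) : X + X = 0 := by
  ext r t; exact f2_add_self _

theorem hot_chain {f g : A →o B} (h : Hot f g) :
    ∃ K : Matrix (Ch B) (Ch A) F2, M f + M g = D B * K + K * D A := by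
  induction h with
  | rel f g h => exact hot_le h
  | refl f => exact ⟨0, by rw [f2m_add_self, Matrix.mul_zero, Matrix.zero_mul, add_zero]⟩
  | symm f g _ ih =>
    obtain ⟨K, hK⟩ := ih
    exact ⟨K, by rw [add_comm, hK]⟩
  | trans f g k _ _ ih1 ih2 =>
    obtain ⟨K, hK⟩ := ih1
    obtain ⟨K', hK'⟩ := ih2
    refine ⟨K + K', ?_⟩
    have : M f + M k = (M f + M g) + (M g + M k) := by
      rw [add_assoc, ← add_assoc (M g), f2m_add_self, zero_add]
    rw [this, hK, hK', Matrix.mul_add, Matrix.add_mul]
    abel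

/-- the reduced Lefschetz number mod 2 -/
def lam (f : A →o A) : F2 := Matrix.trace (M f)

theorem f2_eq_of_add {x y : F2} (h : x + y = 0) : x = y := by
  revert h; revert x y; decide

theorem trace_eq (N : Matrix (Ch A) (Ch B) F2) (hN : D A * N = N * D B)
    (M1 M2 K : Matrix (Ch B) (Ch A) F2) (h : M1 + M2 = D B * K + K * D A) :
    Matrix.trace (N * M1) = Matrix.trace (N * M2) := by
  apply f2_eq_of_add
  rw [← Matrix.trace_add, ← Matrix.mul_add, h, Matrix.mul_add, Matrix.trace_add,
    ← Matrix.mul_assoc, ← Matrix.mul_assoc, ← hN, Matrix.mul_assoc (D A) N K,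
    Matrix.trace_mul_comm (D A) (N * K)]
  exact f2_add_self _

theorem lam_hot {f g : A →o A} (h : Hot f g) : lam f = lam g := by
  obtain ⟨K, hK⟩ := hot_chain h
  have := trace_eq 1 (by rw [Matrix.mul_one, Matrix.one_mul]) (M f) (M g) K hK
  rw [Matrix.one_mul, Matrix.one_mul] at this
  exact this

theorem lam_comm (f : A →o B) (g : B →o A) : lam (f.comp g) = lam (g.comp f) := by
  unfold lam
  rw [M_comp, M_comp, Matrix.trace_mul_comm]

/-- iterates -/
def pw (f : A →o A) : ℕ → (A →o A)
  | 0 => OrderHom.id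
  | n + 1 => (pw f n).comp f

theorem M_pw (f : A →o A) (n : ℕ) : M (pw f n) = M f ^ n := by
  induction n with
  | zero => rw [pow_zero]; exact M_id
  | succ n ih =>
    show M ((pw f n).comp f) = _
    rw [M_comp, ih, pow_succ]

theorem lam_pw (f : A →o A) (n : ℕ) : lam (pw f (2 ^ n)) = lam f := by
  unfold lam
  rw [M_pw]
  induction n with
  | zero => simp
  | succ n ih =>
    rw [pow_succ 2 n, pow_mul, ZMod.trace_pow_card, ih]
    generalize Matrix.trace (M f) = x
    revert x; decide

theorem lam_const (c : A) : lam (OrderHom.const A c) = 0 := by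
  unfold lam
  rw [Matrix.trace]
  have hc : (({c} : Finset A) : Set A) = {c} := by simp
  let t1 : Ch A := ⟨{c}, by rw [hc]; exact Set.subsingleton_singleton.isChain⟩
  have h1 : ∀ t : Ch A, t ≠ Ch.emp → t ≠ t1 → M (OrderHom.const A c) t t = 0 := by
    intro t h0 h1
    by_contra h
    have := M_ne_zero h
    have h2 := congrArg Subtype.val this
    rw [Ch.map_val] at h2
    by_cases hte : t.1.Nonempty
    · rw [show (⇑(OrderHom.const A c) : A → A) = fun _ => c from rfl,
        Finset.image_const hte] at h2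
      exact h1 (Ch.ext' h2.symm)
    · exact h0 (Ch.ext' (Finset.not_nonempty_iff_eq_empty.1 hte))
  have hne : t1 ≠ Ch.emp := by
    intro h
    have := congrArg Subtype.val h
    simp [t1, Ch.emp] at this
  show ∑ t, M (OrderHom.const A c) t t = 0
  rw [← Finset.add_sum_erase _ _ (Finset.mem_univ (Ch.emp : Ch A)),
    ← Finset.add_sum_erase _ _ (Finset.mem_erase.2 ⟨hne, Finset.mem_univ t1⟩),
    Finset.sum_eq_zero, add_zero]
  · have e0 : M (OrderHom.const A c) Ch.emp Ch.emp = 1 := by
      unfold M
      rw [if_pos]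
      refine ⟨Ch.ext' ?_, rfl⟩
      show Finset.image _ (∅ : Finset A) = ∅
      simp
    have e1 : M (OrderHom.const A c) t1 t1 = 1 := by
      unfold M
      rw [if_pos]
      refine ⟨Ch.ext' ?_, rfl⟩
      show Finset.image _ ({c} : Finset A) = {c}
      simp
    rw [e0, e1]
    decide
  · intro t ht
    rw [Finset.mem_erase, Finset.mem_erase] at ht
    exact h1 t ht.2.1 ht.1

theorem fix_of_lam (f : A →o A) (h : lam f = 0) : ∃ a, f a = a := by
  by_contra hno
  push Not at hno
  have h1 : ∀ t : Ch A, t ≠ Ch.emp → M f t t = 0 := by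
    intro t ht
    by_contra hM
    have h2 := M_ne_zero hM
    have hte : t.1 ≠ ∅ := fun h => ht (Ch.ext' h)
    obtain ⟨a, ha, hmin⟩ := exists_least t hte
    have h3 : a ∈ (t.map f).1 := by rw [h2]; exact ha
    rw [Ch.map_val, Finset.mem_image] at h3
    obtain ⟨b, hb, hba⟩ := h3
    have h4 : f a ≤ a := by
      rw [← hba]; exact f.monotone (by rw [hba]; exact hmin b hb)
    have h5 : f a ∈ (t.map f).1 := Finset.mem_image_of_mem _ ha
    rw [h2] at h5
    exact hno a (le_antisymm h4 (hmin _ h5))
  have h2 : lam f = 1 := by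
    show ∑ t, M f t t = 1
    rw [Finset.sum_eq_single Ch.emp]
    · unfold M
      rw [if_pos]
      refine ⟨Ch.ext' ?_, rfl⟩
      show Finset.image _ (∅ : Finset A) = ∅
      simp
    · intro t _ ht; exact h1 t ht
    · intro h; exact absurd (Finset.mem_univ _) h
  rw [h2] at h
  exact absurd h (by decide)

omit [Fintype A] [Fintype B] in
theorem Hot.map {A' B' : Type} [PartialOrder A'] [PartialOrder B'] {f g : A →o B} (h : Hot f g)
    (Θ : (A →o B) → (A' →o B')) (hΘ : ∀ f g, f ≤ g → Θ f ≤ Θ g) : Hot (Θ f) (Θ g) := by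
  induction h with
  | rel f g h => exact Relation.EqvGen.rel _ _ (hΘ f g h)
  | refl f => exact Relation.EqvGen.refl _
  | symm f g _ ih => exact ih.symm
  | trans f g k _ _ ih1 ih2 => exact ih1.trans _ _ _ ih2

omit [Fintype A] [Fintype B] in
theorem Hot.rfl {f : A →o B} : Hot f f := Relation.EqvGen.refl _

/-- inclusion of a subset -/
def inc (Z : Set A) : Z →o A := ⟨Subtype.val, fun _ _ h => h⟩

theorem inc_map (Z : Set A) (u : Ch Z → F2) (s : Ch Z) :
    Matrix.mulVec (M (inc Z)) u (s.map (inc Z)) = u s := by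
  show ∑ t, M (inc Z) (s.map (inc Z)) t * u t = u s
  rw [Finset.sum_eq_single s]
  · have : M (inc Z) (s.map (inc Z)) s = 1 := by
      unfold M
      rw [if_pos]
      refine ⟨rfl, ?_⟩
      rw [Ch.map_val]
      exact Finset.card_image_of_injective _ Subtype.val_injective
    rw [this, one_mul]
  · intro t _ ht
    have : M (inc Z) (s.map (inc Z)) t = 0 := by
      by_contra h
      apply ht
      have h2 := congrArg Subtype.val (M_ne_zero h)
      rw [Ch.map_val, Ch.map_val] at h2
      exact Ch.ext' (Finset.image_injective Subtype.val_injective h2)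
    rw [this, zero_mul]
  · intro h; exact absurd (Finset.mem_univ _) h

theorem inc_out (Z : Set A) (u : Ch Z → F2) (r : Ch A) (hr : ¬ (r.1 : Set A) ⊆ Z) :
    Matrix.mulVec (M (inc Z)) u r = 0 := by
  show ∑ t, M (inc Z) r t * u t = 0
  apply Finset.sum_eq_zero
  intro t _
  have : M (inc Z) r t = 0 := by
    by_contra h
    apply hr
    rw [← M_ne_zero h, Ch.map_val, Finset.coe_image]
    rintro _ ⟨x, _, rfl⟩
    exact x.2
  rw [this, zero_mul]

theorem exists_lift (Z : Set A) (r : Ch A) (hr : (r.1 : Set A) ⊆ Z) :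
    ∃ s : Ch Z, s.map (inc Z) = r := by
  refine ⟨⟨r.1.subtype (· ∈ Z), ?_⟩, ?_⟩
  · intro x hx y hy _
    have hx' : x.1 ∈ r.1 := by simpa using hx
    have hy' : y.1 ∈ r.1 := by simpa using hy
    exact r.2.total hx' hy'
  · apply Ch.ext'
    show Finset.image _ (r.1.subtype (· ∈ Z)) = r.1
    ext a
    rw [Finset.mem_image]
    constructor
    · rintro ⟨x, hx, rfl⟩
      have hx2 : x.1 ∈ r.1 := by simpa using hx
      exact hx2
    · intro ha
      exact ⟨⟨a, hr ha⟩, by simpa using ha, rfl⟩

theorem acyc_of_contr (Z : Set A) (c : Z) (h : Hot (OrderHom.id : Z →o Z) (OrderHom.const Z c)) :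
    Acyc Z := by
  obtain ⟨K, hK⟩ := hot_chain h
  rw [M_id] at hK
  intro v hv hDv
  let v' : Ch Z → F2 := fun s => v (s.map (inc Z))
  have hv' : Matrix.mulVec (M (inc Z)) v' = v := by
    ext r
    by_cases hr : (r.1 : Set A) ⊆ Z
    · obtain ⟨s, rfl⟩ := exists_lift Z r hr
      rw [inc_map]
    · rw [inc_out _ _ _ hr]
      by_contra h
      exact hr (hv r (fun h2 => h h2.symm))
  have hinj : ∀ u : Ch Z → F2, Matrix.mulVec (M (inc Z)) u = 0 → u = 0 := by
    intro u hu
    ext s
    rw [← inc_map Z u s, hu]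
    rfl
  have hDv' : Matrix.mulVec (D Z) v' = 0 := by
    apply hinj
    rw [Matrix.mulVec_mulVec, ← D_comm, ← Matrix.mulVec_mulVec, hv', hDv]
  have hc1 : Matrix.mulVec (D Z) (Matrix.mulVec (M (OrderHom.const Z c)) v') = 0 := by
    rw [Matrix.mulVec_mulVec, D_comm, ← Matrix.mulVec_mulVec, hDv', Matrix.mulVec_zero]
  have hc2 : Sup ({c} : Set Z) (Matrix.mulVec (M (OrderHom.const Z c)) v') := by
    intro r hr
    obtain ⟨s, _, hs⟩ := Finset.exists_ne_zero_of_sum_ne_zero hr
    have hs1 : M (OrderHom.const Z c) r s ≠ 0 := left_ne_zero_of_mul hs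
    intro x hx
    have hx' : x ∈ (s.map (OrderHom.const Z c)).1 := by
      rw [M_ne_zero hs1]; exact hx
    rw [Ch.mem_map] at hx'
    obtain ⟨y, _, rfl⟩ := hx'
    rfl
  obtain ⟨w, _, hw⟩ := acyc_of_least ({c} : Set Z) c rfl (by rintro z rfl; exact le_refl _) _ hc2 hc1
  have hfin : Matrix.mulVec (D Z) (w + Matrix.mulVec K v') = v' := by
    have e1 : Matrix.mulVec (1 + M (OrderHom.const Z c)) v' =
        Matrix.mulVec (D Z * K + K * D Z) v' := by rw [hK]
    rw [Matrix.add_mulVec, Matrix.one_mulVec, Matrix.add_mulVec, ← Matrix.mulVec_mulVec,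
      ← Matrix.mulVec_mulVec, hDv', Matrix.mulVec_zero, add_zero] at e1
    rw [Matrix.mulVec_add, hw, ← e1]
    ext r
    simp only [Pi.add_apply]
    rw [add_comm (v' r), ← add_assoc, f2_add_self, zero_add]
  refine ⟨Matrix.mulVec (M (inc Z)) (w + Matrix.mulVec K v'), ?_, ?_⟩
  · intro r hr
    by_contra h
    exact hr (inc_out _ _ _ h)
  · rw [Matrix.mulVec_mulVec, D_comm, ← Matrix.mulVec_mulVec, hfin, hv']

/-- the total space of a family of idempotents -/
def Tot {B X : Type} [PartialOrder B] [PartialOrder X] (e : B →o (X →o X)) : Type :=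
  {z : B × X // e z.1 z.2 = z.2}

instance {B X : Type} [PartialOrder B] [PartialOrder X] (e : B →o (X →o X)) :
    PartialOrder (Tot e) := by unfold Tot; infer_instance

instance {B X : Type} [PartialOrder B] [PartialOrder X] [Fintype B] [Fintype X]
    (e : B →o (X →o X)) : Fintype (Tot e) := by unfold Tot; infer_instance

theorem bundle_lam {X : Type} [PartialOrder X] [Fintype X] (e : B →o (X →o X))
    (idem : ∀ b x, e b (e b x) = e b x) (hc : ∀ b, ∃ c, Hot (e b) (OrderHom.const X c))
    (F : Tot e →o Tot e) (a : X) (Fb : B →o B)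
    (hFb : ∀ b, Fb b = (F ⟨(b, e b a), idem b a⟩).1.1) : lam F = lam Fb := by
  let π : Tot e →o B := ⟨fun z => z.1.1, fun z w h => h.1⟩
  let s : B →o Tot e := ⟨fun b => ⟨(b, e b a), idem b a⟩, fun b b' h => ⟨h, e.monotone h a⟩⟩
  have hac : ∀ c : Ch B, c.1 ≠ ∅ → Acyc {z : Tot e | π z ∈ c.1} := by
    intro c hcne
    obtain ⟨b1, hb1, hmax⟩ : ∃ b ∈ c.1, ∀ b' ∈ c.1, b' ≤ b := by
      obtain ⟨b, hb⟩ := Finset.exists_maximal (Finset.nonempty_iff_ne_empty.2 hcne)
      refine ⟨b, hb.1, fun b' hb' => ?_⟩
      rcases c.2.total hb.1 hb' with h | h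
      · exact hb.2 hb' h
      · exact h
    obtain ⟨x0, hx0⟩ := hc b1
    let Z : Set (Tot e) := {z : Tot e | π z ∈ c.1}
    let Θ : (X →o X) → (Z →o Z) := fun m =>
      ⟨fun z => ⟨⟨(b1, e b1 (m z.1.1.2)), idem b1 _⟩, hb1⟩, fun z w h =>
        ⟨le_refl _, (e b1).monotone (m.monotone h.2)⟩⟩
    have hΘ : ∀ m m' : X →o X, m ≤ m' → Θ m ≤ Θ m' := fun m m' h z =>
      ⟨le_refl _, (e b1).monotone (h _)⟩
    have h1 : Hot (OrderHom.id : Z →o Z) (Θ (e b1)) := by
      apply Relation.EqvGen.rel
      intro z
      refine ⟨hmax _ z.2, ?_⟩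
      show z.1.1.2 ≤ e b1 (e b1 z.1.1.2)
      rw [idem]
      have h2 : e z.1.1.1 z.1.1.2 = z.1.1.2 := z.1.2
      calc z.1.1.2 = e z.1.1.1 z.1.1.2 := h2.symm
        _ ≤ e b1 z.1.1.2 := e.monotone (hmax _ z.2) _
    have h2 : Hot (Θ (e b1)) (Θ (OrderHom.const X x0)) := hx0.map Θ hΘ
    have h3 : Θ (OrderHom.const X x0) =
        OrderHom.const Z (⟨⟨(b1, e b1 x0), idem b1 _⟩, hb1⟩ : Z) := rfl
    rw [h3] at h2
    exact acyc_of_contr Z _ (h1.trans _ _ _ h2)
  obtain ⟨K, hK⟩ := carrier (M (OrderHom.id : Tot e →o Tot e)) (M (s.comp π)) (D_comm _) (D_comm _)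
    (fun t => {z : Tot e | π z ∈ (t.map π).1}) (by
      intro t t' h z hz
      exact Finset.image_subset_image h hz) (by
      intro t r hr
      rw [← M_ne_zero hr]
      intro z hz
      rw [Ch.map_val, Finset.coe_image] at hz
      obtain ⟨y, hy, rfl⟩ := hz
      exact Finset.mem_image_of_mem _ hy) (by
      intro t r hr
      rw [← M_ne_zero hr]
      intro z hz
      rw [Ch.map_val, Finset.coe_image] at hz
      obtain ⟨y, hy, rfl⟩ := hz
      show π y ∈ Finset.image π t.1
      exact Finset.mem_image_of_mem _ (Finset.mem_coe.1 hy)) (M_emp _ _) (by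
      intro t ht
      apply hac
      intro h
      apply ht
      exact Finset.image_eq_empty.1 h)
  have h1 := trace_eq (M F) (D_comm F) _ _ K hK
  rw [← M_comp, ← M_comp] at h1
  have h2 : lam F = lam (F.comp (s.comp π)) := h1
  have h3 : F.comp (s.comp π) = (F.comp s).comp π := rfl
  rw [h2, h3, lam_comm]
  congr 1
  ext b
  exact (hFb b).symm

end

end Pool.Agent.H262R2
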