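import Pool.Agent.H262R2.Words

set_option autoImplicit false
set_option linter.unusedSectionVars false

namespace Pool.Agent.H262R2

open Finset Classical

noncomputable section

variable {P X B J : Type} [PartialOrder P] [PartialOrder X] [PartialOrder B] [PartialOrder J]

/-- `b ↦ U (c b) (m b)` -/
def Gam (U : X →o (B →o B)) (c : B →o X) (m : B →o B) : B →o B :=
  ⟨fun b => U (c b) (m b), fun b b' h =>
    ((U (c b)).monotone (m.monotone h)).trans (U.monotone (c.monotone h) _)⟩

theorem Gam_left (U : X →o (B →o B)) {c c' : B →o X} (m : B →o B) (h : Hot c c') :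
    Hot (Gam U c m) (Gam U c' m) :=
  h.map (fun c => Gam U c m) (fun _ _ h b => U.monotone (h b) _)

theorem Gam_right (U : X →o (B →o B)) (c : B →o X) {m m' : B →o B} (h : Hot m m') :
    Hot (Gam U c m) (Gam U c m') :=
  h.map (fun m => Gam U c m) (fun _ _ h b => (U (c b)).monotone (h b))

def Phi (U : X →o (B →o B)) (c : ℕ → (P →o X)) (ω : B →o P) : ℕ → (B →o B)
  | 0 => OrderHom.id
  | l + 1 => Gam U ((c l).comp ω) (Phi U c ω l)

theorem Phi_mono (U : X →o (B →o B)) (c : ℕ → (P →o X)) {ω ω' : B →o P} (h : ω ≤ ω') (l : ℕ) :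
    Phi U c ω l ≤ Phi U c ω' l := by
  induction l with
  | zero => exact le_refl _
  | succ l ih =>
    intro b
    exact ((U _).monotone (ih b)).trans (U.monotone ((c l).monotone (h b)) _)

theorem hot_const {A : Type} [PartialOrder A] {x y : X} (h : Relation.EqvGen (· ≤ ·) x y) :
    Hot (OrderHom.const A x) (OrderHom.const A y) := by
  induction h with
  | rel x y h => exact Relation.EqvGen.rel _ _ (fun _ => h)
  | refl x => exact Relation.EqvGen.refl _
  | symm x y _ ih => exact ih.symm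
  | trans x y z _ _ ih1 ih2 => exact ih1.trans _ _ _ ih2

theorem hot_eval (ι : B →o (J →o P)) {j j' : J} (h : Relation.EqvGen (· ≤ ·) j j') :
    Hot (⟨fun b => ι b j, fun _ _ h => ι.monotone h j⟩ : B →o P)
      (⟨fun b => ι b j', fun _ _ h => ι.monotone h j'⟩ : B →o P) := by
  induction h with
  | rel x y h => exact Relation.EqvGen.rel _ _ (fun b => (ι b).monotone h)
  | refl x => exact Relation.EqvGen.refl _
  | symm x y _ ih => exact ih.symm
  | trans x y z _ _ ih1 ih2 => exact ih1.trans _ _ _ ih2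

theorem lam_Ut [Fintype B] (hX : Conn X) (hJ : Conn J) (σ : J ≃o J) (j0 : J)
    (U : X →o (B →o B)) (ι : B →o (J →o P)) (u : X →o (P →o P))
    (hU : ∀ a b j, ι (U a b) j = u a (ι b (σ.symm j))) (β : P →o X) (a : X)
    (hβ : ∀ p, u (β p) p = u a p) (τ : List X) (b0 : B) (hτ : ∀ b, wd U τ b = b0)
    (Ut : B →o B) (hUt : ∀ b, Ut b = U (β (ι b j0)) b) : lam Ut = 0 := by
  let ω : J → (B →o P) := fun j => ⟨fun b => ι b j, fun _ _ h => ι.monotone h j⟩
  have hω : ∀ j j', Hot (ω j) (ω j') := fun j j' => hot_eval ι (hJ j j')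
  let c : ℕ → (P →o X) := fun i => β.comp (pw (u a) i)
  have hshift : ∀ l b, Phi U c (ω (σ j0)) l (Ut b) = Phi U c (ω j0) (l + 1) b := by
    intro l
    induction l with
    | zero => intro b; exact hUt b
    | succ l ih =>
      intro b
      show U (c l (ω (σ j0) (Ut b))) (Phi U c (ω (σ j0)) l (Ut b)) =
        U (c (l + 1) (ω j0 b)) (Phi U c (ω j0) (l + 1) b)
      rw [ih b]
      have h1 : ω (σ j0) (Ut b) = u a (ω j0 b) := by
        show ι (Ut b) (σ j0) = u a (ι b j0)
        rw [hUt, hU, OrderIso.symm_apply_apply, hβ]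
      rw [h1]
      rfl
  have hpw : ∀ l, Hot (pw Ut l) (Phi U c (ω j0) l) := by
    intro l
    induction l with
    | zero => exact Hot.rfl
    | succ l ih =>
      have h1 : Hot ((pw Ut l).comp Ut) ((Phi U c (ω j0) l).comp Ut) := ih.comp_right Ut
      have h2 : Hot ((Phi U c (ω j0) l).comp Ut) ((Phi U c (ω (σ j0)) l).comp Ut) :=
        (hω j0 (σ j0)).map (fun w => (Phi U c w l).comp Ut) (fun _ _ h b => Phi_mono U c h l _)
      have h3 : (Phi U c (ω (σ j0)) l).comp Ut = Phi U c (ω j0) (l + 1) := by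
        apply OrderHom.ext
        funext b
        exact hshift l b
      rw [h3] at h2
      exact h1.trans _ _ _ h2
  -- words acting on `ι`
  have hwd : ∀ (w : List X) (b : B) (j : J), ι (wd U w b) j = wd u w (ι b (σ.symm^[w.length] j)) := by
    intro w
    induction w with
    | nil => intro b j; rfl
    | cons x w ih =>
      intro b j
      show ι (U x (wd U w b)) j = u x (wd u w (ι b (σ.symm^[w.length] (σ.symm j))))
      rw [hU, ih]
  have hconst : ∀ b, wd u τ (ι b j0) = ι b0 (σ^[τ.length] j0) := by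
    intro b
    rw [← hτ b, hwd]
    congr 2
    exact (Function.LeftInverse.iterate (fun j => σ.symm_apply_apply j) τ.length j0).symm
  have hlet : ∀ n, τ.length ≤ n → ∀ x : X, Hot ((c n).comp (ω j0)) (OrderHom.const B x) := by
    intro n hn x
    obtain ⟨m, rfl⟩ : ∃ m, n = m + τ.length := ⟨n - τ.length, by omega⟩
    have h1 : Hot (pw (u a) τ.length) (wd u τ) := by
      rw [← wd_replicate]
      exact hot_words u hX _ _ (by simp)
    have h2 := h1.comp_right (ω j0)
    have h3 : (wd u τ).comp (ω j0) = OrderHom.const B (ι b0 (σ^[τ.length] j0)) := by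
      apply OrderHom.ext
      funext b
      exact hconst b
    rw [h3] at h2
    have h4 := h2.comp_left (β.comp (pw (u a) m))
    have h5 : (β.comp (pw (u a) m)).comp ((pw (u a) τ.length).comp (ω j0)) =
        (c (m + τ.length)).comp (ω j0) := by
      show _ = (β.comp (pw (u a) (m + τ.length))).comp (ω j0)
      rw [pw_add]
      rfl
    have h6 : (β.comp (pw (u a) m)).comp (OrderHom.const B (ι b0 (σ^[τ.length] j0))) =
        OrderHom.const B (β (pw (u a) m (ι b0 (σ^[τ.length] j0)))) := rfl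
    rw [h5, h6] at h4
    exact h4.trans _ _ _ (hot_const (hX _ _))
  have hfin : ∀ (L : List X) (n : ℕ), τ.length ≤ n →
      Hot (Phi U c (ω j0) (n + L.length)) ((wd U L).comp (Phi U c (ω j0) n)) := by
    intro L
    induction L with
    | nil => intro n _; exact Hot.rfl
    | cons x L ih =>
      intro n hn
      have h1 : Hot (Gam U ((c (n + L.length)).comp (ω j0)) (Phi U c (ω j0) (n + L.length)))
          (Gam U (OrderHom.const B x) (Phi U c (ω j0) (n + L.length))) :=
        Gam_left U _ (hlet _ (by omega) x)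
      have h2 : Hot (Gam U (OrderHom.const B x) (Phi U c (ω j0) (n + L.length)))
          (Gam U (OrderHom.const B x) ((wd U L).comp (Phi U c (ω j0) n))) :=
        Gam_right U _ (ih n hn)
      exact h1.trans _ _ _ h2
  obtain ⟨n, hn⟩ : ∃ n, 2 ^ (2 * τ.length) = n + τ.length := by
    have : 2 * τ.length < 2 ^ (2 * τ.length) := Nat.lt_two_pow_self
    exact ⟨2 ^ (2 * τ.length) - τ.length, by omega⟩
  have hn2 : τ.length ≤ n := by
    have : 2 * τ.length < 2 ^ (2 * τ.length) := Nat.lt_two_pow_self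
    omega
  have h1 := (hpw (2 ^ (2 * τ.length)))
  rw [hn] at h1
  have h2 := h1.trans _ _ _ (hfin τ n hn2)
  have h3 : (wd U τ).comp (Phi U c (ω j0) n) = OrderHom.const B b0 := by
    apply OrderHom.ext
    funext b
    exact hτ _
  rw [h3] at h2
  rw [← lam_pw Ut (2 * τ.length), hn, lam_hot h2, lam_const]

/-- powers of a family -/
def pwF (H : P →o (X →o X)) (n : ℕ) : P →o (X →o X) :=
  ⟨fun p => pw (H p) n, by
    intro p q hpq
    show pw (H p) n ≤ pw (H q) n
    induction n with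
    | zero => exact le_refl _
    | succ n ih =>
      intro x
      show pw (H p) n (H p x) ≤ pw (H q) n (H q x)
      exact ((pw (H p) n).monotone (H.monotone hpq x)).trans (ih _)⟩

theorem main_prod {Q : Type} [PartialOrder Q] [Fintype P] [Fintype Q] [Fintype J] [Nonempty P]
    (hPc : Conn P) (hJc : Conn J) (σ : J ≃o J) (j0 : J)
    (hP : ∀ u : P →o P, ∃ y : J →o P, ∀ j, y (σ j) = u (y j))
    (hQ : ∀ u : Q →o Q, ∃ y : J →o Q, ∀ j, y (σ j) = u (y j))
    (f : P × Q →o P × Q) : ∃ ξ : J →o P × Q, ξ (σ j0) = f (ξ j0) := by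
  let h : P →o (Q →o Q) := ⟨fun p => ⟨fun q => (f (p, q)).2, fun q q' hq =>
    (f.monotone (show (p, q) ≤ (p, q') from ⟨le_refl _, hq⟩)).2⟩, fun p p' hp q =>
    (f.monotone (show (p, q) ≤ (p', q) from ⟨hp, le_refl _⟩)).2⟩
  obtain ⟨X, _, _, H, ι1, hH, hXc, τ1, hτ1, x0, hx0⟩ := stage σ h hPc hQ
  obtain ⟨k, hk, hidem⟩ := exists_idem_fam (fun p => pw (H p) τ1.length)
  let e : P →o (X →o X) := pwF (pwF H τ1.length) k
  have he : ∀ p, e p = pw (pw (H p) τ1.length) k := fun p => rfl
  have heidem : ∀ p x, e p (e p x) = e p x := hidem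
  have hcomm : ∀ p x, e p (H p x) = H p (e p x) := by
    intro p x
    have h1 : Commute (H p) ((H p ^ τ1.length) ^ k) :=
      ((Commute.refl (H p)).pow_right _).pow_right _
    have h2 : e p = (H p ^ τ1.length) ^ k := by
      rw [he, pw_eq_pow, pw_eq_pow]
    rw [h2]
    exact DFunLike.congr_fun h1.eq.symm x
  have hec : ∀ p, ∃ c, Hot (e p) (OrderHom.const X c) := by
    intro p
    obtain ⟨k', rfl⟩ : ∃ k', k = k' + 1 := ⟨k - 1, by omega⟩
    refine ⟨wd H (rep τ1 k') x0, ?_⟩
    have h1 : e p = wd H (rep (List.replicate τ1.length p) (k' + 1)) := by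
      rw [he, wd_rep, wd_replicate]
    have h2 : OrderHom.const X (wd H (rep τ1 k') x0) = wd H (rep τ1 (k' + 1)) := by
      apply OrderHom.ext
      funext x
      show wd H (rep τ1 k') x0 = wd H (rep τ1 k' ++ τ1) x
      rw [wd_append_apply, hx0]
    rw [h1, h2]
    exact hot_words H hPc _ _ (by rw [length_rep, length_rep]; simp)
  let u : X →o (P →o P) := ⟨fun a => ⟨fun p => (f (p, ι1 (e p a) j0)).1, fun p p' hp =>
    (f.monotone (show (p, ι1 (e p a) j0) ≤ (p', ι1 (e p' a) j0) from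
      ⟨hp, ι1.monotone (e.monotone hp a) j0⟩)).1⟩, fun a a' ha p =>
    (f.monotone (show (p, ι1 (e p a) j0) ≤ (p, ι1 (e p a') j0) from
      ⟨le_refl _, ι1.monotone ((e p).monotone ha) j0⟩)).1⟩
  have : Nonempty X := ⟨x0⟩
  obtain ⟨B, _, _, U, ι2, hU, hBc, τ2, hτ2, b0, hb0⟩ := stage σ u hXc hP
  let κ : B →o P := ⟨fun b => ι2 b j0, fun _ _ h => ι2.monotone h j0⟩
  let eB : B →o (X →o X) := e.comp κ
  have heB : ∀ b x, eB b (eB b x) = eB b x := fun b x => heidem _ _
  let F : Tot eB →o Tot eB := ⟨fun z => ⟨(U z.1.2 z.1.1, eB (U z.1.2 z.1.1) (H (κ z.1.1) z.1.2)),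
    heB _ _⟩, by
      intro z w hzw
      have h1 : U z.1.2 z.1.1 ≤ U w.1.2 w.1.1 :=
        ((U _).monotone hzw.1).trans (U.monotone hzw.2 _)
      refine ⟨h1, ?_⟩
      have h2 : H (κ z.1.1) z.1.2 ≤ H (κ w.1.1) w.1.2 :=
        ((H _).monotone hzw.2).trans (H.monotone (κ.monotone hzw.1) _)
      exact ((eB _).monotone h2).trans (eB.monotone h1 _)⟩
  let β : P →o X := ⟨fun p => e p x0, fun _ _ h => e.monotone h x0⟩
  let Ut : B →o B := ⟨fun b => U (eB b x0) b, fun b b' h =>
    ((U _).monotone h).trans (U.monotone (eB.monotone h x0) _)⟩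
  have hlam : lam F = lam Ut :=
    bundle_lam eB heB (fun b => hec _) F x0 Ut (fun b => rfl)
  have hlam2 : lam Ut = 0 := by
    refine lam_Ut hXc hJc σ j0 U ι2 u hU β x0 ?_ τ2 b0 hb0 Ut (fun b => rfl)
    intro p
    show (f (p, ι1 (e p (e p x0)) j0)).1 = (f (p, ι1 (e p x0) j0)).1
    rw [heidem]
  obtain ⟨z, hz⟩ := fix_of_lam F (hlam.trans hlam2)
  obtain ⟨⟨b, x⟩, hx⟩ := z
  have hx' : e (κ b) x = x := hx
  have hz1 : U x b = b := congrArg (fun z => z.1.1) hz
  have hz2 : eB (U x b) (H (κ b) x) = x := congrArg (fun z => z.1.2) hz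
  rw [hz1] at hz2
  have hz3 : H (κ b) x = x := by
    have h1 : e (κ b) (H (κ b) x) = x := hz2
    rw [hcomm, hx'] at h1
    exact h1
  refine ⟨⟨fun j => (ι2 b j, ι1 x j), fun j j' hj => ⟨(ι2 b).monotone hj, (ι1 x).monotone hj⟩⟩, ?_⟩
  show (ι2 b (σ j0), ι1 x (σ j0)) = f (ι2 b j0, ι1 x j0)
  have e1 : ι2 b (σ j0) = (f (ι2 b j0, ι1 x j0)).1 := by
    have h1 : ι2 (U x b) (σ j0) = u x (ι2 b (σ.symm (σ j0))) := hU x b (σ j0)
    rw [hz1, OrderIso.symm_apply_apply] at h1
    rw [h1]
    show (f (ι2 b j0, ι1 (e (ι2 b j0) x) j0)).1 = _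
    have h2 : e (ι2 b j0) x = x := hx'
    rw [h2]
  have e2 : ι1 x (σ j0) = (f (ι2 b j0, ι1 x j0)).2 := by
    have h1 : ι1 (H (κ b) x) (σ j0) = h (κ b) (ι1 x (σ.symm (σ j0))) := hH (κ b) x (σ j0)
    rw [hz3, OrderIso.symm_apply_apply] at h1
    exact h1
  rw [e1, e2]

end

end Pool.Agent.H262R2
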