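import Pool.Agent.H262R2.Lef

set_option autoImplicit false
set_option linter.unusedSectionVars false

namespace Pool.Agent.H262R2

open Finset Classical

noncomputable section

/-- order connectedness -/
def Conn (A : Type) [PartialOrder A] : Prop := ∀ a b : A, Relation.EqvGen (· ≤ ·) a b

variable {I Q : Type} [PartialOrder I] [PartialOrder Q]

/-- words in a family of monotone maps -/
def wd (h : I →o (Q →o Q)) : List I → (Q →o Q)
  | [] => OrderHom.id
  | i :: l => (h i).comp (wd h l)

theorem wd_append (h : I →o (Q →o Q)) (l l' : List I) : wd h (l ++ l') = (wd h l).comp (wd h l') := by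
  induction l with
  | nil => rfl
  | cons i l ih =>
    show (h i).comp (wd h (l ++ l')) = _
    rw [ih]; rfl

theorem wd_append_apply (h : I →o (Q →o Q)) (l l' : List I) (q : Q) :
    wd h (l ++ l') q = wd h l (wd h l' q) := by rw [wd_append]; rfl

theorem wd_replicate (h : I →o (Q →o Q)) (i : I) (n : ℕ) :
    wd h (List.replicate n i) = pw (h i) n := by
  induction n with
  | zero => rfl
  | succ n ih =>
    rw [List.replicate_succ', wd_append, ih]
    rfl

theorem pw_add {A : Type} [PartialOrder A] (f : A →o A) (m n : ℕ) :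
    pw f (m + n) = (pw f m).comp (pw f n) := by
  induction n with
  | zero => rfl
  | succ n ih =>
    show (pw f (m + n)).comp f = _
    rw [ih]; rfl

theorem pw_comm {A : Type} [PartialOrder A] (f : A →o A) (n : ℕ) : (pw f n).comp f = f.comp (pw f n) := by
  induction n with
  | zero => rfl
  | succ n ih =>
    show ((pw f n).comp f).comp f = f.comp ((pw f n).comp f)
    exact congrArg (fun m => OrderHom.comp m f) ih

theorem hot_of_eqv (h : I →o (Q →o Q)) {i j : I} (hij : Relation.EqvGen (· ≤ ·) i j) :
    Hot (h i) (h j) := by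
  induction hij with
  | rel i j h' => exact Relation.EqvGen.rel _ _ (h.monotone h')
  | refl i => exact Relation.EqvGen.refl _
  | symm i j _ ih => exact ih.symm
  | trans i j k _ _ ih1 ih2 => exact ih1.trans _ _ _ ih2

theorem Hot.comp_left {A B C : Type} [PartialOrder A] [PartialOrder B] [PartialOrder C]
    {f g : A →o B} (h : Hot f g) (k : B →o C) :
    Hot (k.comp f) (k.comp g) := h.map (fun f => k.comp f) (fun _ _ h x => k.monotone (h x))

theorem Hot.comp_right {A B C : Type} [PartialOrder A] [PartialOrder B] [PartialOrder C]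
    {f g : B →o C} (h : Hot f g) (k : A →o B) :
    Hot (f.comp k) (g.comp k) := h.map (fun f => f.comp k) (fun _ _ h x => h (k x))

/-- words of the same length are homotopic -/
theorem hot_words (h : I →o (Q →o Q)) (hI : Conn I) (l l' : List I) (hl : l.length = l'.length) :
    Hot (wd h l) (wd h l') := by
  induction l generalizing l' with
  | nil =>
    have : l' = [] := List.length_eq_zero_iff.1 (by simpa using hl.symm)
    rw [this]; exact Hot.rfl
  | cons i l ih =>
    cases l' with
    | nil => simp at hl
    | cons j l' =>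
      have h1 := (hot_of_eqv h (hI i j)).comp_right (wd h l)
      have h2 := (ih l' (by simpa using hl)).comp_left (h j)
      exact h1.trans _ _ _ h2

/-- comparable bijections of a finite ordered set are equal -/
theorem rigid {T : Type} [PartialOrder T] [Fintype T] (a b : T → T) (ha : Function.Bijective a)
    (hb : Function.Bijective b) (h : ∀ x, a x ≤ b x) : a = b := by
  have e1 : ∑ x, (univ.filter (· ≤ a x)).card = ∑ x, (univ.filter (· ≤ x)).card :=
    Fintype.sum_bijective a ha (fun x => (univ.filter (· ≤ a x)).card)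
      (fun x => (univ.filter (· ≤ x)).card) (fun _ => rfl)
  have e2 : ∑ x, (univ.filter (· ≤ b x)).card = ∑ x, (univ.filter (· ≤ x)).card :=
    Fintype.sum_bijective b hb (fun x => (univ.filter (· ≤ b x)).card)
      (fun x => (univ.filter (· ≤ x)).card) (fun _ => rfl)
  have hsub : ∀ x, univ.filter (· ≤ a x) ⊆ univ.filter (· ≤ b x) := by
    intro x y hy
    rw [Finset.mem_filter] at hy ⊢
    exact ⟨hy.1, hy.2.trans (h x)⟩
  have hle : ∀ x ∈ (univ : Finset T),
      (univ.filter (· ≤ a x)).card ≤ (univ.filter (· ≤ b x)).card :=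
    fun x _ => Finset.card_le_card (hsub x)
  have := (Finset.sum_eq_sum_iff_of_le hle).1 (e1.trans e2.symm)
  ext x
  have h2 := Finset.eq_of_subset_of_card_le (hsub x) (this x (mem_univ x)).ge
  apply le_antisymm (h x)
  have h3 : b x ∈ univ.filter (· ≤ a x) := by
    rw [h2]; simp
  exact (Finset.mem_filter.1 h3).2

/-- idempotent powers in a finite monoid -/
theorem exists_idem_pow {R : Type} [Monoid R] [Finite R] (a : R) : ∃ k : ℕ, 0 < k ∧ a ^ (k + k) = a ^ k := by
  obtain ⟨m, n, hmn, h⟩ := Finite.exists_ne_map_eq_of_infinite (fun n : ℕ => a ^ n)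
  wlog hlt : m < n generalizing m n
  · exact this n m (Ne.symm hmn) h.symm (lt_of_le_of_ne (not_lt.1 hlt) (Ne.symm hmn))
  have h' : a ^ m = a ^ n := h
  obtain ⟨d, hd⟩ : ∃ d, n = m + d := ⟨n - m, by omega⟩
  have hd0 : 0 < d := by omega
  have key : ∀ j, a ^ (m + j + d) = a ^ (m + j) := by
    intro j
    have : m + j + d = n + j := by omega
    rw [this, pow_add, ← h', ← pow_add]
  have key2 : ∀ i j, a ^ (m + j + i * d) = a ^ (m + j) := by
    intro i
    induction i with
    | zero => intro j; simp
    | succ i ih =>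
      intro j
      have : m + j + (i + 1) * d = m + (j + i * d) + d := by ring
      rw [this, key, ← add_assoc, ih]
  refine ⟨(m + 1) * d, Nat.mul_pos (Nat.succ_pos _) hd0, ?_⟩
  have hge : m ≤ (m + 1) * d := by nlinarith
  obtain ⟨j, hj⟩ : ∃ j, (m + 1) * d = m + j := ⟨(m + 1) * d - m, by omega⟩
  have := key2 (m + 1) j
  rw [← hj] at this
  exact this

theorem pw_eq_pow {A : Type} [PartialOrder A] (f : A →o A) (n : ℕ) : pw f n = f ^ n := by
  induction n with
  | zero => rfl
  | succ n ih =>
    show (pw f n).comp f = _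
    rw [ih, pow_succ]; rfl

instance finOH {A B : Type} [PartialOrder A] [PartialOrder B] [Finite A] [Finite B] :
    Finite (A →o B) := DFunLike.finite _

theorem exists_idem_pw {A : Type} [PartialOrder A] [Finite A] (f : A →o A) :
    ∃ k : ℕ, 0 < k ∧ ∀ x, pw f k (pw f k x) = pw f k x := by
  obtain ⟨k, hk, h⟩ := exists_idem_pow f
  refine ⟨k, hk, fun x => ?_⟩
  have h2 : pw f (k + k) = pw f k := by rw [pw_eq_pow, pw_eq_pow, h]
  rw [pw_add] at h2
  exact DFunLike.congr_fun h2 x

theorem exists_idem_fam {A I : Type} [PartialOrder A] [Finite A] [Finite I] (f : I → (A →o A)) :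
    ∃ k : ℕ, 0 < k ∧ ∀ i x, pw (f i) k (pw (f i) k x) = pw (f i) k x := by
  obtain ⟨k, hk, h⟩ := exists_idem_pow f
  refine ⟨k, hk, fun i x => ?_⟩
  have h2 : pw (f i) (k + k) = pw (f i) k := by
    rw [pw_eq_pow, pw_eq_pow]
    exact congrFun h i
  rw [pw_add] at h2
  exact DFunLike.congr_fun h2 x

/-- repeated words -/
def rep (t : List I) : ℕ → List I
  | 0 => []
  | n + 1 => rep t n ++ t

theorem wd_rep (h : I →o (Q →o Q)) (t : List I) (n : ℕ) : wd h (rep t n) = pw (wd h t) n := by
  induction n with
  | zero => rfl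
  | succ n ih =>
    show wd h (rep t n ++ t) = _
    rw [wd_append, ih]; rfl

theorem length_rep (t : List I) (n : ℕ) : (rep t n).length = n * t.length := by
  induction n with
  | zero => simp [rep]
  | succ n ih =>
    show (rep t n ++ t).length = _
    rw [List.length_append, ih]; ring

theorem exists_min_word [Fintype Q] [Nonempty I] (h : I →o (Q →o Q)) :
    ∃ t : List I, t ≠ [] ∧ (∀ q, wd h t (wd h t q) = wd h t q) ∧
      ∀ l : List I, l ≠ [] → (univ.image (wd h t)).card ≤ (univ.image (wd h l)).card := by
  let S : Set ℕ := {n | ∃ l : List I, l ≠ [] ∧ (univ.image (wd h l)).card = n}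
  have hS : ∃ n, n ∈ S := ⟨_, [Classical.arbitrary I], by simp, rfl⟩
  obtain ⟨l, hl, hln⟩ := Nat.find_spec hS
  have hmin : ∀ l' : List I, l' ≠ [] → (univ.image (wd h l)).card ≤ (univ.image (wd h l')).card := by
    intro l' hl'
    rw [hln]
    exact Nat.find_min' hS ⟨l', hl', rfl⟩
  obtain ⟨k, hk, hidem⟩ := exists_idem_pw (wd h l)
  refine ⟨rep l k, ?_, ?_, ?_⟩
  · intro h0
    have := congrArg List.length h0
    rw [length_rep] at this
    have h1 : 0 < l.length := List.length_pos_of_ne_nil hl
    have h2 := Nat.mul_pos hk h1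
    rw [List.length_nil] at this
    omega
  · intro q
    rw [wd_rep]; exact hidem q
  · intro l' hl'
    refine le_trans ?_ (hmin l' hl')
    rw [wd_rep]
    obtain ⟨k', rfl⟩ : ∃ k', k = k' + 1 := ⟨k - 1, by omega⟩
    have e : pw (wd h l) (k' + 1) = (wd h l).comp (pw (wd h l) k') := by
      show (pw (wd h l) k').comp (wd h l) = _
      exact pw_comm _ _
    rw [e]
    apply Finset.card_le_card
    intro q hq
    rw [Finset.mem_image] at hq ⊢
    obtain ⟨x, _, rfl⟩ := hq
    exact ⟨pw (wd h l) k' x, mem_univ _, rfl⟩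

theorem T_trick [Fintype Q] [Nonempty I] (h : I →o (Q →o Q)) (hI : Conn I) :
    ∃ t : List I, t ≠ [] ∧ (∀ q, wd h t (wd h t q) = wd h t q) ∧
      ∀ (i0 : I) (w : List I) (x : Q), wd h t x = x →
        wd h t (wd h w x) = (fun q => wd h t (h i0 q))^[w.length] x := by
  obtain ⟨t, ht, hidem, hmin⟩ := exists_min_word h
  refine ⟨t, ht, hidem, ?_⟩
  -- the retract
  let T := {q : Q // wd h t q = q}
  let a : List I → T → T := fun w x => ⟨wd h t (wd h w x.1), hidem _⟩
  have hsurj : ∀ w, Function.Surjective (a w) := by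
    intro w
    have h1 : (univ.image (wd h t)).card ≤ (univ.image (wd h (t ++ (w ++ t)))).card :=
      hmin _ (by simp [ht])
    have h2 : univ.image (wd h (t ++ (w ++ t))) ⊆ univ.image (wd h t) := by
      intro q hq
      rw [Finset.mem_image] at hq ⊢
      obtain ⟨x, _, rfl⟩ := hq
      exact ⟨wd h (w ++ t) x, mem_univ _, by rw [← wd_append_apply]⟩
    have h3 := Finset.eq_of_subset_of_card_le h2 h1
    intro y
    have h4 : y.1 ∈ univ.image (wd h t) := Finset.mem_image.2 ⟨y.1, mem_univ _, y.2⟩
    rw [← h3, Finset.mem_image] at h4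
    obtain ⟨x, _, hx⟩ := h4
    refine ⟨⟨wd h t x, hidem x⟩, Subtype.ext ?_⟩
    show wd h t (wd h w (wd h t x)) = y.1
    rw [← wd_append_apply h w t, ← wd_append_apply, hx]
  have hbij : ∀ w, Function.Bijective (a w) := fun w =>
    Finite.injective_iff_bijective.1 (Finite.injective_iff_surjective.2 (hsurj w))
  have hstep : ∀ (u v : List I) (i j : I), Relation.EqvGen (· ≤ ·) i j →
      a (u ++ i :: v) = a (u ++ j :: v) := by
    intro u v i j hij
    induction hij with
    | rel i j hij =>
      apply rigid _ _ (hbij _) (hbij _)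
      intro x
      show wd h t (wd h (u ++ i :: v) x.1) ≤ wd h t (wd h (u ++ j :: v) x.1)
      apply (wd h t).monotone
      rw [wd_append_apply, wd_append_apply]
      apply (wd h u).monotone
      exact h.monotone hij _
    | refl i => rfl
    | symm i j _ ih => exact ih.symm
    | trans i j k _ _ ih1 ih2 => exact ih1.trans ih2
  have hword : ∀ (w w' u : List I), w.length = w'.length → a (u ++ w) = a (u ++ w') := by
    intro w
    induction w with
    | nil =>
      intro w' u hl
      have : w' = [] := List.length_eq_zero_iff.1 (by simpa using hl.symm)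
      rw [this]
    | cons i w ih =>
      intro w' u hl
      cases w' with
      | nil => simp at hl
      | cons j w' =>
        rw [hstep u w i j (hI i j)]
        have h1 : u ++ j :: w = (u ++ [j]) ++ w := by simp
        have h2 : u ++ j :: w' = (u ++ [j]) ++ w' := by simp
        rw [h1, h2]
        exact ih w' (u ++ [j]) (by simpa using hl)
  intro i0 w
  induction w with
  | nil =>
    intro x hx
    exact hx
  | cons i w ih =>
    intro x hx
    have h1 := congrFun (hword ((i :: w) ++ t) ([i0] ++ (t ++ w)) [] (by simp; omega)) ⟨x, hx⟩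
    have h2 := congrArg Subtype.val h1
    have h3 : wd h t (wd h ([] ++ ((i :: w) ++ t)) x) = wd h t (wd h ([] ++ ([i0] ++ (t ++ w))) x) := h2
    rw [List.nil_append, List.nil_append, wd_append_apply, hx, wd_append_apply, wd_append_apply,
      ih x hx] at h3
    rw [h3, List.length_cons, Function.iterate_succ_apply']
    rfl

theorem Hot.apply {A B : Type} [PartialOrder A] [PartialOrder B] {f g : A →o B} (h : Hot f g)
    (x : A) : Relation.EqvGen (· ≤ ·) (f x) (g x) := by
  induction h with
  | rel f g h => exact Relation.EqvGen.rel _ _ (h x)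
  | refl f => exact Relation.EqvGen.refl _
  | symm f g _ ih => exact ih.symm
  | trans f g k _ _ ih1 ih2 => exact ih1.trans _ _ _ ih2

theorem stage {I Q J : Type} [PartialOrder I] [PartialOrder Q] [PartialOrder J] [Fintype Q]
    [Fintype J] [Nonempty I] (σ : J ≃o J) (h : I →o (Q →o Q)) (hI : Conn I)
    (hQ : ∀ u : Q →o Q, ∃ y : J →o Q, ∀ j, y (σ j) = u (y j)) :
    ∃ (X : Type) (_ : PartialOrder X) (_ : Fintype X) (H : I →o (X →o X)) (ι : X →o (J →o Q)),
      (∀ i x j, ι (H i x) j = h i (ι x (σ.symm j))) ∧ Conn X ∧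
        ∃ τ : List I, τ ≠ [] ∧ ∃ x0 : X, ∀ x, wd H τ x = x0 := by
  obtain ⟨t, ht, hidem, hT⟩ := T_trick h hI
  let i0 : I := Classical.arbitrary I
  let sh : J →o J := ⟨σ.symm, σ.symm.monotone⟩
  let Hh : I →o ((J →o Q) →o (J →o Q)) :=
    ⟨fun i => ⟨fun y => (h i).comp (y.comp sh), fun y y' hy j => (h i).monotone (hy _)⟩,
      fun i i' hi y j => h.monotone hi _⟩
  have hHh : ∀ (w : List I) (y : J →o Q) (j : J), wd Hh w y j = wd h w (y (σ.symm^[w.length] j)) := by
    intro w
    induction w with
    | nil => intro y j; rfl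
    | cons i w ih =>
      intro y j
      show h i (wd Hh w y (σ.symm j)) = h i (wd h w (y (σ.symm^[w.length] (σ.symm j))))
      rw [ih]
  obtain ⟨x0, hx0⟩ := hQ ((wd h t).comp (h i0))
  let η : Q → Q := fun q => wd h t (h i0 q)
  have hx0' : ∀ j, x0 (σ j) = η (x0 j) := hx0
  have hx0T : ∀ j, wd h t (x0 j) = x0 j := by
    intro j
    have := hx0 (σ.symm j)
    rw [OrderIso.apply_symm_apply] at this
    rw [this]
    exact hidem _
  have hη : ∀ n j, x0 j = η^[n] (x0 (σ.symm^[n] j)) := by
    intro n
    induction n with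
    | zero => intro j; rfl
    | succ n ih =>
      intro j
      rw [Function.iterate_succ_apply', Function.iterate_succ_apply, ← ih (σ.symm j), ← hx0',
        OrderIso.apply_symm_apply]
  have hηt : ∀ x, wd h t x = x → η^[t.length] x = x := by
    intro x hx
    have := hT i0 t x hx
    rw [hx, hx] at this
    exact this.symm
  have hconst : ∀ w, wd Hh t (wd Hh w x0) = x0 := by
    intro w
    rw [← wd_append_apply]
    apply DFunLike.ext
    intro j
    rw [hHh, wd_append_apply, hT i0 w _ (hx0T _), hη (t ++ w).length j]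
    have e : (t ++ w).length = w.length + t.length := by rw [List.length_append]; omega
    have e2 : η^[(t ++ w).length] (x0 (σ.symm^[(t ++ w).length] j)) =
        η^[w.length] (η^[t.length] (x0 (σ.symm^[(t ++ w).length] j))) := by
      rw [← Function.iterate_add_apply, e]
    rw [e2, hηt _ (hx0T _)]
  let X := {y : J →o Q // ∃ w : List I, y = wd Hh w x0}
  have : Finite (J →o Q) := finOH
  letI : Fintype X := Fintype.ofFinite X
  let H : I →o (X →o X) :=
    ⟨fun i => ⟨fun x => ⟨Hh i x.1, by
        obtain ⟨w, hw⟩ := x.2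
        exact ⟨i :: w, by rw [hw]; rfl⟩⟩, fun x x' hx => (Hh i).monotone hx⟩,
      fun i i' hi x => Hh.monotone hi x.1⟩
  have hHv : ∀ (w : List I) (x : X), (wd H w x).1 = wd Hh w x.1 := by
    intro w
    induction w with
    | nil => intro x; rfl
    | cons i w ih =>
      intro x
      show Hh i (wd H w x).1 = Hh i (wd Hh w x.1)
      rw [ih]
  let X0 : X := ⟨x0, [], rfl⟩
  have hτ : ∀ x : X, wd H t x = X0 := by
    intro x
    apply Subtype.ext
    rw [hHv]
    obtain ⟨w, hw⟩ := x.2
    rw [hw]
    exact hconst w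
  refine ⟨X, inferInstance, inferInstance, H, ⟨fun x => x.1, fun _ _ h => h⟩, ?_, ?_, t, ht, X0, hτ⟩
  · intro i x j; rfl
  · have hrep : ∀ n, wd H (rep t n) X0 = X0 := by
      intro n
      induction n with
      | zero => rfl
      | succ n ih =>
        show wd H (rep t n ++ t) X0 = X0
        rw [wd_append_apply, hτ, ih]
    have hrep2 : ∀ n, wd H (rep (t ++ [i0]) n) X0 = X0 := by
      intro n
      induction n with
      | zero => rfl
      | succ n ih =>
        show wd H (rep (t ++ [i0]) n ++ (t ++ [i0])) X0 = X0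
        rw [wd_append_apply, wd_append_apply, hτ, ih]
    have hc : ∀ x : X, Relation.EqvGen (· ≤ ·) x X0 := by
      intro x
      obtain ⟨w, hw⟩ := x.2
      have h1 := hot_words H hI (w ++ rep t w.length) (rep (t ++ [i0]) w.length) (by
        rw [List.length_append, length_rep, length_rep, List.length_append]
        simp
        ring)
      have h2 := h1.apply X0
      rw [wd_append_apply, hrep, hrep2] at h2
      have h3 : wd H w X0 = x := by
        apply Subtype.ext
        rw [hHv, hw]
      rw [h3] at h2
      exact h2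
    intro x y
    exact (hc x).trans _ _ _ (hc y).symm

end

end Pool.Agent.H262R2
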